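import Pool.Agent.Lib.P325g.Defs

/-!
# First properties of `inside` and `theta`
-/

open Finset

namespace Pool.Agent.P325g

variable {Γ κ : Type} [Group Γ] [Fintype κ] (g : κ → Γ) (w : κ → ℕ)

theorem inside_eq [DecidableEq Γ] (F : Finset Γ) :
    inside g w F = ∑ k, w k * (F.filter (fun x => g k * x ∈ F)).card := by
  unfold inside
  refine Finset.sum_congr rfl fun k _ => ?_
  congr 2
  ext x
  simp

theorem inside_le (F : Finset Γ) : inside g w F ≤ (∑ k, w k) * F.card := by
  classical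
  rw [inside_eq, Finset.sum_mul]
  exact Finset.sum_le_sum fun k _ => Nat.mul_le_mul_left _ (Finset.card_filter_le _ _)

theorem bddAbove_ratio : BddAbove {r : ℝ | ∃ F : Finset Γ, F.Nonempty ∧
    r = (inside g w F : ℝ) / (((∑ k, w k : ℕ) : ℝ) * F.card)} := by
  refine ⟨1, ?_⟩
  rintro r ⟨F, -, rfl⟩
  refine div_le_one_of_le₀ ?_ (by positivity)
  have := inside_le g w F
  exact_mod_cast this

theorem inside_le_theta (hw : 0 < ∑ k, w k) (F : Finset Γ) :
    (inside g w F : ℝ) ≤ theta g w * ((∑ k, w k : ℕ) : ℝ) * F.card := by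
  rcases F.eq_empty_or_nonempty with rfl | hF
  · have h := inside_le g w ∅
    simp only [Finset.card_empty, mul_zero, Nat.le_zero] at h
    simp [h]
  · have hn : (0 : ℝ) < ((∑ k, w k : ℕ) : ℝ) := by exact_mod_cast hw
    have hc : (0 : ℝ) < F.card := by exact_mod_cast hF.card_pos
    have h := le_csSup (bddAbove_ratio g w) ⟨F, hF, rfl⟩
    rw [div_le_iff₀ (by positivity)] at h
    calc (inside g w F : ℝ) ≤ theta g w * (((∑ k, w k : ℕ) : ℝ) * F.card) := h
      _ = _ := by ring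

theorem theta_le_of (hw : 0 < ∑ k, w k) (c : ℝ)
    (h : ∀ F : Finset Γ, F.Nonempty →
      (inside g w F : ℝ) ≤ c * ((∑ k, w k : ℕ) : ℝ) * F.card) : theta g w ≤ c := by
  have hn : (0 : ℝ) < ((∑ k, w k : ℕ) : ℝ) := by exact_mod_cast hw
  refine csSup_le ⟨_, {1}, Finset.singleton_nonempty _, rfl⟩ ?_
  rintro r ⟨F, hF, rfl⟩
  have hc : (0 : ℝ) < F.card := by exact_mod_cast hF.card_pos
  rw [div_le_iff₀ (by positivity)]
  calc (inside g w F : ℝ) ≤ c * ((∑ k, w k : ℕ) : ℝ) * F.card := h F hF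
    _ = _ := by ring

theorem theta_le_one (hw : 0 < ∑ k, w k) : theta g w ≤ 1 := by
  refine theta_le_of g w hw 1 fun F _ => ?_
  have := inside_le g w F
  rw [one_mul]
  exact_mod_cast this

theorem theta_nonneg : 0 ≤ theta g w := by
  refine Real.sSup_nonneg ?_
  rintro r ⟨F, -, rfl⟩
  positivity

end Pool.Agent.P325g
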