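import Mathlib
import Pool.Agent.Lib.P325f1f.Dich.GameDefs

/-!
# Unique games whose constraints are actions of fixed elements of a group

Definitions only.
-/

open Finset

namespace Pool.Agent.P325g

open Pool.Agent.P325f1f.Dich

/-- The weighted number of edges `(x, g k * x)` of the Cayley graph with both ends in the finite
set `F`; an edge of type `k` has weight `w k`. -/
noncomputable def inside {Γ κ : Type} [Group Γ] [Fintype κ] (g : κ → Γ) (w : κ → ℕ)
    (F : Finset Γ) : ℕ := by
  classical
  exact ∑ k, w k * (F.filter (fun x => g k * x ∈ F)).card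

/-- The largest proportion (supremum) of edges inside a finite nonempty set: one minus the edge
isoperimetric constant of the weighted Cayley graph. -/
noncomputable def theta {Γ κ : Type} [Group Γ] [Fintype κ] (g : κ → Γ) (w : κ → ℕ) : ℝ :=
  sSup {r : ℝ | ∃ F : Finset Γ, F.Nonempty ∧
    r = (inside g w F : ℝ) / (((∑ k, w k : ℕ) : ℝ) * F.card)}

/-- The subgroup generated by the elements of positive weight. -/
def used {Γ κ : Type} [Group Γ] (g : κ → Γ) (w : κ → ℕ) : Subgroup Γ :=
  Subgroup.closure {x | ∃ k, 0 < w k ∧ g k = x}

/-- The game `I` is played with the elements `g k` of the group `Γ` with frequencies proportional to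
`w`: the group acts on the labels, every edge `e` has a type `c e`, its constraint is the action of
`g (c e)` or the inverse of it, and the proportion of edges of type `k` is `w k / ∑ w`. -/
def PlayedWith {Γ κ U W Ω ι : Type} [Group Γ] [Fintype κ] [Fintype ι] (g : κ → Γ) (w : κ → ℕ)
    (I : Game U W Ω ι) : Prop := by
  classical
  exact ∃ (act : Γ →* Equiv.Perm Ω) (c : ι → κ),
    (∀ e, I.perm e = act (g (c e)) ∨ I.perm e = (act (g (c e)))⁻¹) ∧
      ∀ k, (univ.filter (fun e => c e = k)).card * ∑ l, w l = w k * Fintype.card ι

/-- The right-angled Artin group of the graph `G`: one generator for each vertex, adjacent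
generators commute. -/
abbrev Raag {κ : Type} (G : SimpleGraph κ) : Type :=
  PresentedGroup {r : FreeGroup κ | ∃ k l, G.Adj k l ∧
    r = FreeGroup.of k * FreeGroup.of l * (FreeGroup.of k)⁻¹ * (FreeGroup.of l)⁻¹}

/-- The generators of the right-angled Artin group. -/
def gen {κ : Type} (G : SimpleGraph κ) (k : κ) : Raag G := PresentedGroup.of k

end Pool.Agent.P325g
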