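import Pool.Agent.Lib.P325g.Defs
import Pool.Agent.Lib.P325f1f.Amen.Easy
import Pool.Agent.Lib.P325t.SdpDefs
import Pool.Agent.Lib.P325t.WEasy

/-!
# The easy half: types generating an amenable subgroup

Sketch. Put `n = ∑ w`, `v = ∑ k ∈ S, w k`. If `v = 0` the claim follows from `0 ≤ value`
(`Pool.Agent.P325t.value_nonneg'`). Otherwise let `H = Subgroup.closure (g '' S)` and
`s : Fin d → H` the list of all `g k`, `(g k)⁻¹`, `k ∈ S`. `Pool.Agent.P325f1f.Amen.easy s (hS d s) b` (with `b`
as its `κ`) gives `ε0`; put `ε = ε0 * v / n` (and make it at most what is needed). For a game `I` as in the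
statement restrict it to the edges with `c e ∈ S` (index type `{e // c e ∈ S}`, nonempty; its number is
`v / n` times the number of all edges); `H` acts on the labels by `act`. Every term of the objective is at most `1` (Cauchy-Schwarz,
`IsSys`; see how `Pool.Agent.P325t.easyW` or `Pool.Agent.P325c.easyC` bound the objective on the restricted
edges), so the objective on the restricted edges is at least `1 - ε * n / v ≥ 1 - ε0`, and the restricted
game has value at least `1 - b`. A labeling of it satisfies a fraction `(1 - b) * v / n ≥ v / n - b` of all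
edges of `I`.
-/

open Finset
open scoped BigOperators

namespace Pool.Agent.P325g

open Pool.Agent.P325f1f.Dich Pool.Agent.P325f1f.Amen Pool.Agent.P325t

theorem easyS {Γ κ : Type} [Group Γ] [Fintype κ] (g : κ → Γ) (w : κ → ℕ) (hw : 0 < ∑ k, w k)
    (S : Finset κ) (hS : Amenable (Subgroup.closure (g '' (S : Set κ)))) (b : ℝ) (hb : 0 < b) :
    ∃ ε : ℝ, 0 < ε ∧ ∀ (U W Ω ι : Type) [Fintype Ω] [Nonempty Ω] [Fintype ι] [Nonempty ι]
      (I : Game U W Ω ι), PlayedWith g w I → ∀ (D : ℕ) (X : U ⊕ W → Ω → Fin D → ℝ),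
      (∀ v, IsSys (X v)) → 1 - ε ≤ sdpObj I X →
      ((∑ k ∈ S, w k : ℕ) : ℝ) / ((∑ k, w k : ℕ) : ℝ) - b ≤ I.value := by
  classical
  have hn : (0 : ℝ) < ((∑ k, w k : ℕ) : ℝ) := by exact_mod_cast hw
  set n : ℝ := ((∑ k, w k : ℕ) : ℝ) with hndef
  rcases Nat.eq_zero_or_pos (∑ k ∈ S, w k) with hv0 | hv0
  · refine ⟨1, one_pos, ?_⟩
    intro U W Ω ι _ _ _ _ I _ D X _ _
    rw [hv0, Nat.cast_zero, zero_div]
    have := value_nonneg' I
    linarith
  have hv : (0 : ℝ) < ((∑ k ∈ S, w k : ℕ) : ℝ) := by exact_mod_cast hv0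
  have hvn : ((∑ k ∈ S, w k : ℕ) : ℝ) ≤ n := by
    rw [hndef]
    exact_mod_cast Finset.sum_le_sum_of_subset (Finset.subset_univ S)
  set v : ℝ := ((∑ k ∈ S, w k : ℕ) : ℝ) with hvdef
  -- the list of the elements
  have hmem : ∀ k ∈ S, g k ∈ Subgroup.closure (g '' (S : Set κ)) := fun k hk =>
    Subgroup.subset_closure (Set.mem_image_of_mem g (Finset.mem_coe.2 hk))
  set e0 := Fintype.equivFin (S × Bool) with he0
  set s : Fin (Fintype.card (S × Bool)) → Subgroup.closure (g '' (S : Set κ)) := fun i =>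
    if (e0.symm i).2 then ⟨g (e0.symm i).1.1, hmem _ (e0.symm i).1.2⟩
    else ⟨g (e0.symm i).1.1, hmem _ (e0.symm i).1.2⟩⁻¹ with hs
  have hs1 : ∀ k (hk : k ∈ S), ((s (e0 (⟨k, hk⟩, true))) : Γ) = g k := by
    intro k hk
    rw [hs]
    simp
  have hs2 : ∀ k (hk : k ∈ S), ((s (e0 (⟨k, hk⟩, false))) : Γ) = (g k)⁻¹ := by
    intro k hk
    rw [hs]
    simp
  obtain ⟨ε0, hε0, heasy⟩ := easy s (hS _ s) b hb
  refine ⟨ε0 * v / n, by positivity, ?_⟩
  intro U W Ω ι _ _ _ _ I hI D X hX hobj
  obtain ⟨act, c, hperm, hfreq⟩ := hI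
  have hι : (0 : ℝ) < Fintype.card ι := by exact_mod_cast Fintype.card_pos
  -- the edges with type in `S`
  set E : Finset ι := univ.filter (fun e => c e ∈ S) with hE
  have hEcard : (E.card : ℝ) * n = v * Fintype.card ι := by
    have h1 : E.card = ∑ k ∈ S, (univ.filter (fun e => c e = k)).card := by
      rw [Finset.card_eq_sum_card_fiberwise (f := c) (s := E) (t := S)
        (fun e he => (Finset.mem_filter.1 he).2)]
      refine Finset.sum_congr rfl (fun k hk => ?_)
      congr 1
      ext e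
      simp only [Finset.mem_filter, mem_univ, true_and, hE]
      exact ⟨fun h => h.2, fun h => ⟨by rw [h]; exact hk, h⟩⟩
    have h2 : E.card * ∑ l, w l = (∑ k ∈ S, w k) * Fintype.card ι := by
      rw [h1, Finset.sum_mul, Finset.sum_mul]
      refine Finset.sum_congr rfl (fun k _ => ?_)
      rw [← hfreq k]
    rw [hndef, hvdef]
    exact_mod_cast h2
  have hE0 : (0 : ℝ) < E.card := by
    have h1 : 0 < (E.card : ℝ) * n := by rw [hEcard]; positivity
    exact pos_of_mul_pos_left h1 hn.le
  have hneE : Nonempty E := by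
    have h1 : 0 < E.card := by exact_mod_cast hE0
    obtain ⟨e, he⟩ := Finset.card_pos.1 h1
    exact ⟨⟨e, he⟩⟩
  set x : U → Ω → Fin D → ℝ := fun u => X (Sum.inl u) with hx
  set y : W → Ω → Fin D → ℝ := fun u => X (Sum.inr u) with hy
  have hxs : ∀ u, IsSys (x u) := fun u => hX _
  have hys : ∀ u, IsSys (y u) := fun u => hX _
  have hobj' : sdpObj I X = (∑ e, contrib I x y e) / Fintype.card ι := by
    rw [sdpObj, Fintype.expect_eq_sum_div_card]
    rfl
  have hdef : ∑ e, (1 - contrib I x y e) ≤ ε0 * E.card := by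
    rw [Finset.sum_sub_distrib, Finset.sum_const, Finset.card_univ, nsmul_eq_mul, mul_one]
    rw [hobj', le_div_iff₀ hι] at hobj
    have h1 : ε0 * v / n * Fintype.card ι = ε0 * E.card := by
      rw [div_mul_eq_mul_div, div_eq_iff hn.ne', mul_assoc, mul_assoc, hEcard]
    rw [sub_mul, h1] at hobj
    linarith
  set J : Game U W Ω E :=
    { src := fun e => I.src e.1
      dst := fun e => I.dst e.1
      perm := fun e => I.perm e.1 } with hJ
  let _ : MulAction (Subgroup.closure (g '' (S : Set κ))) Ω :=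
    MulAction.compHom Ω (act.comp (Subgroup.closure (g '' (S : Set κ))).subtype)
  have htp : ∀ h : Subgroup.closure (g '' (S : Set κ)),
      (MulAction.toPerm h : Equiv.Perm Ω) = act (h : Γ) := by
    intro h
    ext ω
    rfl
  have hJS : ∀ e : E, ∃ k, J.perm e = MulAction.toPerm (s k) := by
    intro e
    have heS : c e.1 ∈ S := (Finset.mem_filter.1 e.2).2
    rcases hperm e.1 with h | h
    · refine ⟨e0 (⟨c e.1, heS⟩, true), ?_⟩
      rw [htp, hs1]
      exact h
    · refine ⟨e0 (⟨c e.1, heS⟩, false), ?_⟩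
      rw [htp, hs2, map_inv]
      exact h
  have hobjJ : (𝔼 e, ∑ ω, ∑ i, x (J.src e) ω i * y (J.dst e) (J.perm e ω) i) =
      (∑ e ∈ E, contrib I x y e) / E.card := by
    have h1 : ∀ e : E, (∑ ω, ∑ i, x (J.src e) ω i * y (J.dst e) (J.perm e ω) i) =
        contrib I x y e.1 := fun e => rfl
    rw [Finset.expect_congr rfl (fun e _ => h1 e), Fintype.expect_eq_sum_div_card,
      Fintype.card_coe, Finset.sum_coe_sort E (contrib I x y)]
  have hval := heasy Ω U W E J hJS D x y hxs hys (by
    rw [hobjJ, le_div_iff₀ hE0]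
    have h1 : ∑ e ∈ E, (1 - contrib I x y e) ≤ ∑ e, (1 - contrib I x y e) :=
      Finset.sum_le_sum_of_subset_of_nonneg (Finset.subset_univ _)
        (fun e _ _ => by linarith [contrib_le I x y hxs hys e])
    have h2 := h1.trans hdef
    rw [Finset.sum_sub_distrib, Finset.sum_const, nsmul_eq_mul, mul_one] at h2
    linarith)
  obtain ⟨p, q, hpq⟩ := exists_value J
  rw [← hpq, Game.satFrac, Fintype.card_coe, le_div_iff₀ hE0] at hval
  have h2 : ((univ.filter (fun e : E => J.perm e (p (J.src e)) = q (J.dst e))).card : ℝ) ≤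
      ((univ.filter (fun e => I.perm e (p (I.src e)) = q (I.dst e))).card : ℝ) := by
    rw [Nat.cast_le]
    refine Finset.card_le_card_of_injOn (fun e => e.1) ?_ ?_
    · intro e he
      have h3 := (Finset.mem_filter.1 he).2
      exact Finset.mem_coe.2 (Finset.mem_filter.2 ⟨mem_univ _, h3⟩)
    · intro e _ e' _ h
      exact Subtype.ext h
  refine le_trans ?_ (le_value I p q)
  rw [Game.satFrac, le_div_iff₀ hι]
  have h7 : (E.card : ℝ) = v / n * Fintype.card ι := by
    rw [div_mul_eq_mul_div, eq_div_iff hn.ne']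
    exact hEcard
  have h8 : (v / n - b) * Fintype.card ι ≤ (1 - b) * (E.card : ℝ) := by
    have h9 : (E.card : ℝ) ≤ Fintype.card ι := by exact_mod_cast Finset.card_le_univ E
    rw [sub_mul, sub_mul, ← h7, one_mul]
    have h10 := mul_le_mul_of_nonneg_left h9 hb.le
    linarith
  have h11 : ∀ (p : U → Ω) (q : W → Ω) (i1 : DecidablePred fun e => I.perm e (p (I.src e)) = q (I.dst e))
      (i2 : DecidablePred fun e => I.perm e (p (I.src e)) = q (I.dst e)),
      (@Finset.filter ι (fun e => I.perm e (p (I.src e)) = q (I.dst e)) i1 univ).card =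
      (@Finset.filter ι (fun e => I.perm e (p (I.src e)) = q (I.dst e)) i2 univ).card := by
    intro p q i1 i2
    have hi : i1 = i2 := Subsingleton.elim _ _
    rw [hi]
  have h12 : ∀ (p : U → Ω) (q : W → Ω) (i1 : DecidablePred fun e => J.perm e (p (J.src e)) = q (J.dst e))
      (i2 : DecidablePred fun e => J.perm e (p (J.src e)) = q (J.dst e)),
      (@Finset.filter E (fun e => J.perm e (p (J.src e)) = q (J.dst e)) i1 univ).card =
      (@Finset.filter E (fun e => J.perm e (p (J.src e)) = q (J.dst e)) i2 univ).card := by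
    intro p q i1 i2
    have hi : i1 = i2 := Subsingleton.elim _ _
    rw [hi]
  refine h8.trans (hval.trans ?_)
  rw [h12 p q _ (fun e => Classical.propDecidable _)]
  rw [h11 p q _ (fun e => Classical.propDecidable _)]
  rw [h12 p q _ (fun e => Classical.propDecidable _)] at h2
  rw [h11 p q _ (fun e => Classical.propDecidable _)] at h2
  exact h2

end Pool.Agent.P325g
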