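import Pool.Agent.Lib.P325g.Defs
import Pool.Agent.Lib.P325c.Words

/-!
# Reduced words and actions of right-angled Artin groups

Sketch. Every element is the product of some word (induction for presented groups: the quotient map from
the free group is surjective, and `FreeGroup.mk` is surjective; or `PresentedGroup.closure_range_of`). Take
a word of minimal length with product `x`; it is reduced: if `l = u ++ a :: (y ++ linv a :: z)` and all
letters `c` of `y` satisfy `G.Adj a.1 c.1`, then the value of `a` commutes with the product of `y`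
(relations), so `u ++ (y ++ z)` has the same product and is shorter.
The action: `PresentedGroup.toGroup` with `σ`, the relations hold by `Comm G σ`.
-/

open Finset

namespace Pool.Agent.P325g

open Pool.Agent.P325c

/-- The product of a word. -/
def wprod {κ : Type} (G : SimpleGraph κ) : List (κ × Bool) → Raag G
  | [] => 1
  | a :: l => (if a.2 then gen G a.1 else (gen G a.1)⁻¹) * wprod G l

theorem gen_comm {κ : Type} (G : SimpleGraph κ) {k l : κ} (h : G.Adj k l) :
    gen G k * gen G l = gen G l * gen G k := by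
  have h1 : PresentedGroup.mk {r : FreeGroup κ | ∃ k l, G.Adj k l ∧
      r = FreeGroup.of k * FreeGroup.of l * (FreeGroup.of k)⁻¹ * (FreeGroup.of l)⁻¹}
      (FreeGroup.of k * FreeGroup.of l * (FreeGroup.of k)⁻¹ * (FreeGroup.of l)⁻¹) = 1 :=
    PresentedGroup.one_of_mem ⟨k, l, h, rfl⟩
  rw [map_mul, map_mul, map_mul, map_inv, map_inv] at h1
  have h2 : gen G k * gen G l * (gen G k)⁻¹ * (gen G l)⁻¹ = 1 := h1
  rw [mul_inv_eq_one, mul_inv_eq_iff_eq_mul] at h2
  exact h2

theorem comm_left {κ : Type} (G : SimpleGraph κ) :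
    Comm G (fun k => Equiv.mulLeft (gen G k)) := by
  intro k l h
  ext x
  simp only [Equiv.Perm.coe_mul, Function.comp_apply, Equiv.coe_mulLeft, ← mul_assoc]
  rw [gen_comm G h]

theorem wperm_left {κ : Type} (G : SimpleGraph κ) (l : List (κ × Bool)) (x : Raag G) :
    wperm (fun k => Equiv.mulLeft (gen G k)) l x = wprod G l * x := by
  induction l generalizing x with
  | nil => simp [wperm, wprod]
  | cons a l ih =>
    obtain ⟨k, b⟩ := a
    cases b
    · simp [wperm, wprod, lperm, ih, mul_assoc]
    · simp [wperm, wprod, lperm, ih, mul_assoc]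

theorem exists_word {κ : Type} (G : SimpleGraph κ) (x : Raag G) :
    ∃ l : List (κ × Bool), wprod G l = x := by
  obtain ⟨y, rfl⟩ := PresentedGroup.mk_surjective _ x
  obtain ⟨L, rfl⟩ := Quot.exists_rep y
  refine ⟨L, ?_⟩
  show wprod G L = PresentedGroup.mk _ (FreeGroup.mk L)
  induction L with
  | nil =>
    show (1 : Raag G) = PresentedGroup.mk _ (1 : FreeGroup κ)
    rw [map_one]
  | cons a L ih =>
    obtain ⟨k, b⟩ := a
    have e : FreeGroup.mk ((k, b) :: L) = FreeGroup.mk [(k, b)] * FreeGroup.mk L := by
      rw [FreeGroup.mul_mk]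
      rfl
    rw [e, map_mul, ← ih]
    cases b
    · have e2 : (FreeGroup.mk [(k, false)] : FreeGroup κ) = (FreeGroup.of k)⁻¹ := by
        simp [FreeGroup.of, FreeGroup.inv_mk, FreeGroup.invRev]
      rw [e2, map_inv]
      rfl
    · rfl

theorem exists_red {κ : Type} (G : SimpleGraph κ) (x : Raag G) :
    ∃ l : List (κ × Bool), Red G l ∧ wprod G l = x := by
  have key : ∀ n : ℕ, ∀ l : List (κ × Bool), l.length = n →
      ∃ l' : List (κ × Bool), Red G l' ∧ wprod G l' = wprod G l := by
    intro n
    induction n using Nat.strong_induction_on with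
    | _ n ih =>
      intro l hl
      by_cases hr : Red G l
      · exact ⟨l, hr, rfl⟩
      · obtain ⟨u, y, z, a, e, hy⟩ := not_red hr
        have h1 : wprod G (u ++ (y ++ z)) = wprod G l := by
          have h2 := cancel_pair (comm_left G) a u y z hy
          have h3 := congrArg (fun f : Equiv.Perm (Raag G) => f 1) h2
          simp only [wperm_left, mul_one] at h3
          rw [e, h3]
        obtain ⟨l', hl', hl2⟩ := ih (u ++ (y ++ z)).length (by
          rw [← hl, e]
          simp only [List.length_append, List.length_cons]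
          omega) _ rfl
        exact ⟨l', hl', hl2.trans h1⟩
  obtain ⟨l, rfl⟩ := exists_word G x
  exact key _ l rfl

theorem exists_raagAct {κ Ω : Type} (G : SimpleGraph κ) (σ : κ → Equiv.Perm Ω) (hσ : Comm G σ) :
    ∃ act : Raag G →* Equiv.Perm Ω, (∀ k, act (gen G k) = σ k) ∧
      ∀ l, act (wprod G l) = wperm σ l := by
  have h : ∀ r ∈ {r : FreeGroup κ | ∃ k l, G.Adj k l ∧
      r = FreeGroup.of k * FreeGroup.of l * (FreeGroup.of k)⁻¹ * (FreeGroup.of l)⁻¹},
      FreeGroup.lift σ r = 1 := by
    rintro r ⟨k, l, hkl, rfl⟩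
    simp only [map_mul, map_inv, FreeGroup.lift_apply_of]
    rw [hσ k l hkl, mul_inv_eq_one, mul_inv_eq_iff_eq_mul]
  refine ⟨PresentedGroup.toGroup h, fun k => PresentedGroup.toGroup.of h, ?_⟩
  intro l
  induction l with
  | nil =>
    show PresentedGroup.toGroup h 1 = 1
    rw [map_one]
  | cons a l ih =>
    obtain ⟨k, b⟩ := a
    have hk : PresentedGroup.toGroup h (gen G k) = σ k := PresentedGroup.toGroup.of h
    cases b
    · show PresentedGroup.toGroup h ((gen G k)⁻¹ * wprod G l) = (σ k)⁻¹ * wperm σ l
      rw [map_mul, map_inv, hk, ih]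
    · show PresentedGroup.toGroup h (gen G k * wprod G l) = σ k * wperm σ l
      rw [map_mul, hk, ih]

theorem comm_of_act {κ Ω : Type} (G : SimpleGraph κ) (act : Raag G →* Equiv.Perm Ω) :
    Comm G (fun k => act (gen G k)) := by
  intro k l h
  show act (gen G k) * act (gen G l) = act (gen G l) * act (gen G k)
  rw [← map_mul, ← map_mul, gen_comm G h]

/-- The homomorphism to the free abelian group. -/
theorem exists_toAb {κ : Type} (G : SimpleGraph κ) :
    ∃ f : Raag G →* Multiplicative (κ → ℤ), ∀ k, f (gen G k) =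
      Multiplicative.ofAdd (fun l => by classical exact if l = k then (1 : ℤ) else 0) := by
  obtain ⟨v, hv⟩ : ∃ v : κ → Multiplicative (κ → ℤ), v = fun k =>
    Multiplicative.ofAdd (fun l => by classical exact if l = k then (1 : ℤ) else 0) := ⟨_, rfl⟩
  have h : ∀ r ∈ {r : FreeGroup κ | ∃ k l, G.Adj k l ∧
      r = FreeGroup.of k * FreeGroup.of l * (FreeGroup.of k)⁻¹ * (FreeGroup.of l)⁻¹},
      FreeGroup.lift v r = 1 := by
    rintro r ⟨k, l, hkl, rfl⟩
    simp only [map_mul, map_inv, FreeGroup.lift_apply_of]
    rw [mul_comm (v k) (v l), mul_inv_eq_one, mul_inv_eq_iff_eq_mul]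
  refine ⟨PresentedGroup.toGroup h, fun k => ?_⟩
  have hk : PresentedGroup.toGroup h (gen G k) = v k := PresentedGroup.toGroup.of h
  rw [hk, hv]

end Pool.Agent.P325g
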