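import Pool.Agent.Lib.P325g.Basic
import Pool.Agent.Lib.P325g.RaagRed
import Pool.Agent.Lib.P325f1f.Amen.Defs

/-!
# `theta` of a right-angled Artin group, lower bound

Sketch. Let `C` be a clique of `G` with `∑ k ∈ C, w k = cliqueWeight G w` (the `sup` over a nonempty finite
family is attained). For `R : ℕ` positive let `F_R` be the set of all products `∏ k ∈ C, gen k ^ (i k)`,
`0 ≤ i k < R` (the generators of `C` commute: use `Finset.noncommProd`, or the homomorphism
`(C → Multiplicative ℤ) → Raag G` obtained from `MonoidHom.noncommPiCoprod`, or define the product along a list of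
the elements of `C`; with a homomorphism `φ` with `φ (single k) = gen G k` the set `F_R` is the image of a box).
It has exactly `R ^ |C|` elements (apply `exists_toAb`), and for `k ∈ C` the `x` with exponent of `k` less than
`R - 1` satisfy `gen k * x ∈ F_R`, so `inside (gen G) w F_R ≥ (∑ k ∈ C, w k) * (1 - 1 / R) * |F_R|`, whence
`(1 - 1 / R) * cliqueWeight / n ≤ theta` by `inside_le_theta`. Let `R` tend to infinity.
The second statement: a generator has infinite order by `exists_toAb`.
-/

open Finset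

namespace Pool.Agent.P325g

open Pool.Agent.P325c

namespace RLAux

variable {κ : Type}

theorem gen_comm {G : SimpleGraph κ} {k l : κ} (h : G.Adj k l) :
    Commute (gen G k) (gen G l) := by
  have h1 : PresentedGroup.mk {r : FreeGroup κ | ∃ k l, G.Adj k l ∧
      r = FreeGroup.of k * FreeGroup.of l * (FreeGroup.of k)⁻¹ * (FreeGroup.of l)⁻¹}
      (FreeGroup.of k * FreeGroup.of l * (FreeGroup.of k)⁻¹ * (FreeGroup.of l)⁻¹) = 1 :=
    PresentedGroup.one_of_mem ⟨k, l, h, rfl⟩
  rw [map_mul, map_mul, map_mul, map_inv, map_inv] at h1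
  have h2 : gen G k * gen G l * (gen G k)⁻¹ * (gen G l)⁻¹ = 1 := h1
  rw [mul_inv_eq_one, mul_inv_eq_iff_eq_mul] at h2
  exact h2

theorem toAb_pow {G : SimpleGraph κ} {f : Raag G →* Multiplicative (κ → ℤ)}
    (hf : ∀ k, f (gen G k) = Multiplicative.ofAdd
      (fun l => by classical exact if l = k then (1 : ℤ) else 0)) (k l : κ) (n : ℤ) :
    Multiplicative.toAdd (f (gen G k ^ n)) l = n * (by classical exact if l = k then (1 : ℤ) else 0) := by
  rw [map_zpow, hf, toAdd_zpow]
  simp

theorem exists_embed [DecidableEq κ] (G : SimpleGraph κ) (C : Finset κ) (hC : G.IsClique (C : Set κ)) :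
    ∃ g : (C → ℕ) → Raag G, Function.Injective g ∧
      ∀ (u : C → ℕ) (k : C), g (Function.update u k (u k + 1)) = gen G k.1 * g u := by
  have hcomm : Pairwise fun i j : C => ∀ x y : Multiplicative ℤ,
      Commute (zpowersHom (Raag G) (gen G i.1) x) (zpowersHom (Raag G) (gen G j.1) y) := by
    intro i j hij x y
    rw [zpowersHom_apply, zpowersHom_apply]
    refine (gen_comm (hC i.2 j.2 ?_)).zpow_zpow _ _
    exact fun h => hij (Subtype.ext h)
  obtain ⟨Φ, hΦ⟩ : ∃ Φ : (C → Multiplicative ℤ) →* Raag G, ∀ k x,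
      Φ (Pi.mulSingle k x) = gen G k.1 ^ (Multiplicative.toAdd x) := by
    refine ⟨MonoidHom.noncommPiCoprod (fun k : C => zpowersHom (Raag G) (gen G k.1)) hcomm, ?_⟩
    intro k x
    rw [MonoidHom.noncommPiCoprod_mulSingle, zpowersHom_apply]
  obtain ⟨f, hf⟩ := exists_toAb G
  have hev : ∀ (l : C) (x : C → Multiplicative ℤ),
      Multiplicative.toAdd (f (Φ x)) l.1 = Multiplicative.toAdd (x l) := by
    intro l
    have h1 : ((AddMonoidHom.toMultiplicative (Pi.evalAddMonoidHom (fun _ : κ => ℤ) l.1)).comp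
        f).comp Φ = Pi.evalMonoidHom (fun _ : C => Multiplicative ℤ) l := by
      refine MonoidHom.functions_ext _ _ _ fun k x => ?_
      have h2 := toAb_pow hf k.1 l.1 (Multiplicative.toAdd x)
      have h3 : ((AddMonoidHom.toMultiplicative (Pi.evalAddMonoidHom (fun _ : κ => ℤ) l.1)).comp
          f).comp Φ (Pi.mulSingle k x) =
          Multiplicative.ofAdd (Multiplicative.toAdd (f (gen G k.1 ^ (Multiplicative.toAdd x))) l.1) := by
        rw [← hΦ]
        rfl
      rw [h3, h2, Pi.evalMonoidHom_apply]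
      by_cases hkl : l = k
      · subst hkl
        rw [Pi.mulSingle_eq_same, if_pos rfl, mul_one]
        rfl
      · have hkl' : l.1 ≠ k.1 := fun h => hkl (Subtype.ext h)
        rw [Pi.mulSingle_eq_of_ne hkl, if_neg hkl', mul_zero]
        rfl
    intro x
    have h4 := DFunLike.congr_fun h1 x
    exact congrArg Multiplicative.toAdd h4
  refine ⟨fun u => Φ (fun l => Multiplicative.ofAdd ((u l : ℕ) : ℤ)), ?_, ?_⟩
  · intro u u' huu
    funext l
    have h1 := hev l (fun l => Multiplicative.ofAdd ((u l : ℕ) : ℤ))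
    have h2 := hev l (fun l => Multiplicative.ofAdd ((u' l : ℕ) : ℤ))
    beta_reduce at huu
    rw [huu, h2] at h1
    simp only [toAdd_ofAdd] at h1
    exact_mod_cast h1.symm
  · intro u k
    have h1 : (fun l : C => Multiplicative.ofAdd
        ((Function.update u k (u k + 1) l : ℕ) : ℤ)) =
        Pi.mulSingle k (Multiplicative.ofAdd (1 : ℤ)) *
          fun l => Multiplicative.ofAdd ((u l : ℕ) : ℤ) := by
      funext l
      rw [Pi.mul_apply]
      by_cases hl : l = k
      · subst hl
        rw [Function.update_self, Pi.mulSingle_eq_same, ← ofAdd_add]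
        push_cast
        rw [add_comm]
      · rw [Function.update_of_ne hl, Pi.mulSingle_eq_of_ne hl, one_mul]
    beta_reduce
    rw [h1, map_mul, hΦ, toAdd_ofAdd, zpow_one]

theorem card_sub {C : Type} [Fintype C] [DecidableEq C] (k : C) (R : ℕ) :
    R * (Fintype.piFinset (fun l : C => if l = k then range (R - 1) else range R)).card =
      (R - 1) * (Fintype.piFinset (fun _ : C => range R)).card := by
  rw [Fintype.card_piFinset, Fintype.card_piFinset]
  rw [← Finset.mul_prod_erase univ _ (mem_univ k), ← Finset.mul_prod_erase univ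
    (fun _ : C => (range R).card) (mem_univ k)]
  rw [if_pos rfl, card_range, card_range]
  have h : ∏ x ∈ univ.erase k, (if x = k then range (R - 1) else range R).card =
      ∏ x ∈ univ.erase k, (range R).card := by
    refine Finset.prod_congr rfl fun x hx => ?_
    rw [if_neg (Finset.ne_of_mem_erase hx)]
  rw [h]
  simp only [card_range]
  ring

theorem box_bound [Fintype κ] (G : SimpleGraph κ) (w : κ → ℕ) (C : Finset κ)
    (hC : G.IsClique (C : Set κ)) (R : ℕ) (hR : 1 ≤ R) :
    ∃ F : Finset (Raag G), F.Nonempty ∧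
      (∑ k ∈ C, w k) * ((R - 1) * F.card) ≤ R * inside (gen G) w F := by
  classical
  obtain ⟨g, hg, hupd⟩ := exists_embed G C hC
  obtain ⟨B, hB⟩ : ∃ B : Finset (C → ℕ), B = Fintype.piFinset (fun _ : C => range R) := ⟨_, rfl⟩
  refine ⟨B.image g, ?_, ?_⟩
  · refine Finset.Nonempty.image ⟨fun _ => 0, ?_⟩ g
    rw [hB, Fintype.mem_piFinset]
    intro l
    exact mem_range.2 hR
  · rw [Finset.card_image_of_injective _ hg, inside_eq, Finset.mul_sum, Finset.sum_mul]
    refine le_trans (Finset.sum_le_sum fun k hk => ?_)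
      (Finset.sum_le_sum_of_subset (f := fun k => R * (w k *
        ((B.image g).filter (fun x => gen G k * x ∈ B.image g)).card)) (Finset.subset_univ C))
    have h1 := card_sub (⟨k, hk⟩ : C) R
    have h2 : (Fintype.piFinset (fun l : C => if l = ⟨k, hk⟩ then range (R - 1) else
        range R)).card ≤ ((B.image g).filter (fun x => gen G k * x ∈ B.image g)).card := by
      rw [← Finset.card_image_of_injective _ hg]
      refine Finset.card_le_card ?_
      intro x hx
      obtain ⟨u, hu, rfl⟩ := Finset.mem_image.1 hx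
      rw [Fintype.mem_piFinset] at hu
      have huk : u ⟨k, hk⟩ < R - 1 := by
        have := hu ⟨k, hk⟩
        rw [if_pos rfl, mem_range] at this
        exact this
      have hul : ∀ l, u l < R := by
        intro l
        by_cases hl : l = ⟨k, hk⟩
        · rw [hl]; omega
        · have := hu l
          rw [if_neg hl, mem_range] at this
          exact this
      rw [Finset.mem_filter]
      refine ⟨Finset.mem_image_of_mem g ?_, ?_⟩
      · rw [hB, Fintype.mem_piFinset]
        exact fun l => mem_range.2 (hul l)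
      · have h3 := hupd u ⟨k, hk⟩
        rw [← h3]
        refine Finset.mem_image_of_mem g ?_
        rw [hB, Fintype.mem_piFinset]
        intro l
        rw [mem_range]
        by_cases hl : l = ⟨k, hk⟩
        · rw [hl, Function.update_self]; omega
        · rw [Function.update_of_ne hl]; exact hul l
    rw [hB, ← h1, ← hB]
    calc w k * (R * (Fintype.piFinset (fun l : C => if l = ⟨k, hk⟩ then range (R - 1) else
        range R)).card) ≤ w k * (R * ((B.image g).filter
          (fun x => gen G k * x ∈ B.image g)).card) :=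
          Nat.mul_le_mul_left _ (Nat.mul_le_mul_left _ h2)
      _ = _ := by ring

theorem exists_clique' [Fintype κ] (G : SimpleGraph κ) (w : κ → ℕ) :
    ∃ F : Finset κ, G.IsClique (F : Set κ) ∧ ∑ k ∈ F, w k = cliqueWeight G w := by
  classical
  have hne : (univ.filter (fun F : Finset κ => G.IsClique (F : Set κ))).Nonempty := by
    refine ⟨∅, ?_⟩
    rw [Finset.mem_filter]
    refine ⟨mem_univ _, ?_⟩
    rw [Finset.coe_empty]
    exact SimpleGraph.isClique_empty
  obtain ⟨F, hF, hsup⟩ := Finset.exists_mem_eq_sup _ hne (fun F => ∑ k ∈ F, w k)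
  refine ⟨F, (Finset.mem_filter.1 hF).2, ?_⟩
  rw [cliqueWeight, ← hsup]

end RLAux

open RLAux

theorem raag_lower {κ : Type} [Fintype κ] (G : SimpleGraph κ) (w : κ → ℕ)
    (hw : 0 < ∑ k, w k) :
    (cliqueWeight G w : ℝ) / ((∑ k, w k : ℕ) : ℝ) ≤ theta (gen G) w := by
  obtain ⟨C, hC, hCw⟩ := exists_clique' G w
  have hn : (0 : ℝ) < ((∑ k, w k : ℕ) : ℝ) := by exact_mod_cast hw
  rw [div_le_iff₀ hn, ← hCw]
  have key : ∀ R : ℕ, 1 ≤ R → ((∑ k ∈ C, w k : ℕ) : ℝ) * ((R : ℝ) - 1) ≤
      R * (theta (gen G) w * ((∑ k, w k : ℕ) : ℝ)) := by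
    intro R hR
    obtain ⟨F, hF, hb⟩ := box_bound G w C hC R hR
    have h1 := inside_le_theta (gen G) w hw F
    have hc : (0 : ℝ) < F.card := by exact_mod_cast hF.card_pos
    have h2 : ((∑ k ∈ C, w k : ℕ) : ℝ) * (((R : ℝ) - 1) * F.card) ≤
        R * (inside (gen G) w F : ℝ) := by
      have h3 : (((∑ k ∈ C, w k) * ((R - 1) * F.card) : ℕ) : ℝ) ≤
          ((R * inside (gen G) w F : ℕ) : ℝ) := by exact_mod_cast hb
      rw [Nat.cast_mul, Nat.cast_mul, Nat.cast_mul, Nat.cast_sub hR, Nat.cast_one] at h3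
      exact h3
    have h4 : (R : ℝ) * (inside (gen G) w F : ℝ) ≤
        R * (theta (gen G) w * ((∑ k, w k : ℕ) : ℝ) * F.card) :=
      mul_le_mul_of_nonneg_left h1 (by positivity)
    have h5 : (((∑ k ∈ C, w k : ℕ) : ℝ) * ((R : ℝ) - 1)) * F.card ≤
        (R * (theta (gen G) w * ((∑ k, w k : ℕ) : ℝ))) * F.card := by
      calc _ = ((∑ k ∈ C, w k : ℕ) : ℝ) * (((R : ℝ) - 1) * F.card) := by ring
        _ ≤ _ := h2.trans h4
        _ = _ := by ring
    exact le_of_mul_le_mul_right h5 hc
  by_contra hcon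
  push Not at hcon
  obtain ⟨R, hR⟩ := exists_nat_gt (((∑ k ∈ C, w k : ℕ) : ℝ) /
    (((∑ k ∈ C, w k : ℕ) : ℝ) - theta (gen G) w * ((∑ k, w k : ℕ) : ℝ)))
  have hpos : (0 : ℝ) < ((∑ k ∈ C, w k : ℕ) : ℝ) - theta (gen G) w * ((∑ k, w k : ℕ) : ℝ) := by
    linarith
  rw [div_lt_iff₀ hpos] at hR
  have hR1 : 1 ≤ R := by
    rcases Nat.eq_zero_or_pos R with h0 | h0
    · exfalso
      rw [h0, Nat.cast_zero, zero_mul] at hR
      have : (0 : ℝ) ≤ ((∑ k ∈ C, w k : ℕ) : ℝ) := Nat.cast_nonneg _
      linarith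
    · exact h0
  have h6 := key R hR1
  nlinarith

theorem raag_infinite {κ : Type} [Fintype κ] (G : SimpleGraph κ) (w : κ → ℕ)
    (hw : 0 < ∑ k, w k) : Infinite (used (gen G) w) := by
  classical
  have hk : ∃ k, 0 < w k := by
    by_contra hcon
    push Not at hcon
    have : ∑ k, w k = 0 := Finset.sum_eq_zero fun k _ => Nat.le_zero.1 (hcon k)
    omega
  obtain ⟨k, hk⟩ := hk
  obtain ⟨f, hf⟩ := exists_toAb G
  have hmem : gen G k ∈ used (gen G) w := Subgroup.subset_closure ⟨k, hk, rfl⟩
  refine Infinite.of_injective (fun n : ℤ => (⟨gen G k ^ n, Subgroup.zpow_mem _ hmem n⟩ :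
    used (gen G) w)) ?_
  intro n n' h
  have h1 : gen G k ^ n = gen G k ^ n' := congrArg Subtype.val h
  have h2 := toAb_pow hf k k n
  have h3 := toAb_pow hf k k n'
  rw [h1, h3] at h2
  rw [if_pos rfl, mul_one, mul_one] at h2
  exact h2.symm

end Pool.Agent.P325g
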