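import Pool.Agent.Lib.P325g.RaagUpper
import Pool.Agent.Lib.P325g.RaagLower
import Pool.Agent.Lib.P325c.Easy
import Pool.Agent.Lib.P325t.SdpDefs

/-!
# Right-angled Artin groups: the exact threshold
-/

open Finset
open scoped BigOperators

namespace Pool.Agent.P325g

open Pool.Agent.P325f1f.Dich Pool.Agent.P325f1f.Amen Pool.Agent.P325c Pool.Agent.P325t

theorem raag_theta {κ : Type} [Fintype κ] (G : SimpleGraph κ) (w : κ → ℕ)
    (hw : 0 < ∑ k, w k) :
    theta (gen G) w = (cliqueWeight G w : ℝ) / ((∑ k, w k : ℕ) : ℝ) := by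
  have hn : (0 : ℝ) < ((∑ k, w k : ℕ) : ℝ) := by exact_mod_cast hw
  refine le_antisymm ?_ (raag_lower G w hw)
  refine theta_le_of _ w hw _ fun F _ => ?_
  rw [div_mul_cancel₀ _ hn.ne']
  exact_mod_cast raag_upper G w F

theorem commutingWith_of_playedWith {κ U W Ω ι : Type} [Fintype κ] [Fintype ι]
    (G : SimpleGraph κ) (w : κ → ℕ) (I : Game U W Ω ι) (hI : PlayedWith (gen G) w I) :
    CommutingWith G w I := by
  obtain ⟨act, c, h1, h2⟩ := hI
  exact ⟨c, fun k => act (gen G k), comm_of_act G act, h1, h2⟩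

theorem raag_easy {κ : Type} [Fintype κ] (G : SimpleGraph κ) (w : κ → ℕ)
    (hw : 0 < ∑ k, w k) (ε : ℝ) (hε : 0 < ε) (hε1 : ε ≤ 1) {U W Ω ι : Type} [Fintype Ω]
    [Nonempty Ω] [Fintype ι] [Nonempty ι] (I : Game U W Ω ι) (hI : PlayedWith (gen G) w I) (D : ℕ)
    (X : U ⊕ W → Ω → Fin D → ℝ) (hX : ∀ v, IsSys (X v)) (hobj : 1 - ε ≤ sdpObj I X) :
    theta (gen G) w - 2000 * (Fintype.card κ : ℝ) * (√ε * (1 + Real.log (1 / ε))) ≤ I.value := by
  rw [raag_theta G w hw]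
  exact easyC ε hε hε1 G w hw I (commutingWith_of_playedWith G w I hI) D
    (fun u => X (Sum.inl u)) (fun v => X (Sum.inr v)) (fun u => hX (Sum.inl u))
    (fun v => hX (Sum.inr v)) hobj

end Pool.Agent.P325g
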