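import Pool.Agent.Lib.P325g.Basic
import Pool.Agent.Lib.P325f1f.Amen.Hard

/-!
# Non-amenable groups: `theta` can be made arbitrarily small

Sketch. Compare the beginning of `Pool.Agent.P325f1f.Amen.hard`: from `¬ Amenable Γ` get `s : Fin d → Γ` with
`¬ Folner s`, add the neutral element (`s k0 = 1`), and `exists_eta` gives `η` with the isoperimetric
inequality `hH` for all finite nonempty subsets of `Γ`. Let `n0` be such that
`(1 - η ^ 2 / (2 d ^ 3)) ^ n0 ≤ δ ^ 2`, `r = Fintype.card (Fin n0 → Fin d)` and `g` the list of all words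
`wprod s n0 v`. Claim: `inside g 1 F ≤ δ * r * |F|` for all finite nonempty `F` (then `theta_le_of`). Given
`F`, let `N` be large and take a finite action `Ω` of `Γ` as in `exists_iso` (residual finiteness) in which small
sets satisfy the isoperimetric inequality and in which moreover the finitely many elements `y * x⁻¹`,
`y * (g k * x)⁻¹`, `x, y ∈ F`, have no fixed points unless they are trivial (apply `exists_action` to a
larger set: the product of the two actions; or repeat the proof of `exists_iso` with a larger `B`). Fix `ω0`;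
`x ↦ x • ω0` is injective on `F` with image `A`. Apply `min_words` with `μ = ν =` the uniform
distribution on `A` and `x = 1 / (2 |A|)`: the number of pairs (word `v`, `ω ∈ A`) with `wprod s n0 v • ω ∈ A` is at
most `δ * r * |A|`, and every pair counted by `inside` gives such a pair.
-/

open Finset
open scoped BigOperators

namespace Pool.Agent.P325g

open Pool.Agent.P325f1f.Amen

private theorem iso_of_free {Γ : Type} [Group Γ] {d : ℕ} (s : Fin d → Γ) (c : ℝ)
    (hc : ∀ F : Finset Γ, F.Nonempty → ∀ _ : DecidableEq Γ,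
      (∑ k, ∑ g ∈ F, if s k * g ∈ F then (1 : ℝ) else 0) ≤ c * F.card) (N : ℕ)
    {Ω : Type} [MulAction Γ Ω] [DecidableEq Ω]
    (hΩ : ∀ k, ∀ a ∈ ball s N, ∀ b ∈ ball s N, ∀ h : Ω,
      (a⁻¹ * (s k * b)) • h = h → a⁻¹ * (s k * b) = 1) (H : Finset Ω) :
    H.card ≤ N → (∑ k, ∑ ω ∈ H, if s k • ω ∈ H then (1 : ℝ) else 0) ≤ c * H.card := by
  classical
  induction H using Finset.strongInduction with
  | H H ih =>
    intro hN
    rcases H.eq_empty_or_nonempty with rfl | ⟨h0, hh0⟩
    · simp
    obtain ⟨C, hCH, hC0, hcl1, hcl2, hCg⟩ := exists_component s H h0 hh0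
    by_cases hCeq : C = H
    · -- the connected case: lift to the group
      subst hCeq
      choose! f hf1 hf2 using hCg
      set F : Finset Γ := C.image f with hF
      have hinj : Set.InjOn f (C : Set Ω) := by
        intro x hx y hy hxy
        rw [← hf2 x hx, ← hf2 y hy, hxy]
      have hFc : F.card = C.card := Finset.card_image_of_injOn hinj
      have hFne : F.Nonempty := ⟨f h0, Finset.mem_image_of_mem f hC0⟩
      have h1 := hc F hFne inferInstance
      rw [hFc] at h1
      refine le_trans ?_ h1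
      refine Finset.sum_le_sum (fun k _ => ?_)
      rw [hF, Finset.sum_image hinj]
      refine Finset.sum_le_sum (fun ω hω => ?_)
      by_cases h : s k • ω ∈ C
      · rw [if_pos h, if_pos]
        have h2 : (f (s k • ω))⁻¹ * (s k * f ω) = 1 := by
          refine hΩ k _ (ball_mono s hN (hf1 _ h)) _ (ball_mono s hN (hf1 _ hω)) h0 ?_
          rw [mul_smul, mul_smul, hf2 ω hω]
          rw [inv_smul_eq_iff, hf2 _ h]
        have h3 : s k * f ω = f (s k • ω) := by
          rw [inv_mul_eq_one] at h2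
          exact h2.symm
        rw [h3]
        exact Finset.mem_image_of_mem f h
      · rw [if_neg h]
        split_ifs <;> norm_num
    · have hss : C ⊂ H := Finset.ssubset_iff_subset_ne.2 ⟨hCH, hCeq⟩
      have hss' : H \ C ⊂ H := Finset.sdiff_ssubset hCH ⟨h0, hC0⟩
      have i1 := ih C hss ((Finset.card_le_card hCH).trans hN)
      have i2 := ih (H \ C) hss' ((Finset.card_le_card hss'.1).trans hN)
      have hcard : (H.card : ℝ) = C.card + (H \ C).card := by
        have := Finset.card_sdiff_add_card_eq_card hCH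
        rw [← this]
        push_cast
        ring
      rw [hcard]
      have hsplit : (∑ k, ∑ ω ∈ H, if s k • ω ∈ H then (1 : ℝ) else 0) =
          (∑ k, ∑ ω ∈ C, if s k • ω ∈ C then (1 : ℝ) else 0) +
          ∑ k, ∑ ω ∈ H \ C, if s k • ω ∈ H \ C then (1 : ℝ) else 0 := by
        rw [← Finset.sum_add_distrib]
        refine Finset.sum_congr rfl (fun k _ => ?_)
        rw [← Finset.sum_sdiff hCH, add_comm]
        congr 1
        · refine Finset.sum_congr rfl (fun ω hω => ?_)
          by_cases h : s k • ω ∈ H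
          · rw [if_pos h, if_pos (hcl1 k ω hω h)]
          · rw [if_neg h, if_neg (fun h' => h (hCH h'))]
        · refine Finset.sum_congr rfl (fun ω hω => ?_)
          rw [Finset.mem_sdiff] at hω
          by_cases h : s k • ω ∈ H
          · rw [if_pos h, if_pos (Finset.mem_sdiff.2 ⟨h, fun h' => hω.2 (hcl2 k ω hω.1 h')⟩)]
          · rw [if_neg h, if_neg (fun h' => h (Finset.mem_sdiff.1 h').1)]
      rw [hsplit]
      linarith

theorem exists_small {Γ : Type} [Group Γ] (hres : ResFinite Γ) (hΓ : ¬ Amenable Γ) (δ : ℝ)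
    (hδ : 0 < δ) : ∃ (r : ℕ) (g : Fin r → Γ), 0 < r ∧ theta g (fun _ => 1) ≤ δ := by
  classical
  obtain ⟨d0, s0, hs0⟩ : ∃ (d0 : ℕ) (s0 : Fin d0 → Γ), ¬ Folner s0 := by
    by_contra hcon
    push Not at hcon
    exact hΓ hcon
  set d := d0 + 1 with hd
  set s : Fin d → Γ := Fin.cons 1 s0 with hs
  have hk0 : s 0 = 1 := rfl
  have hns : ¬ Folner s := by
    intro h
    apply hs0
    intro η hη
    obtain ⟨F, hF, h1⟩ := h η hη
    refine ⟨F, hF, fun k => ?_⟩
    have h2 := h1 k.succ
    exact h2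
  have hd1 : 1 ≤ d := Nat.succ_le_succ (Nat.zero_le _)
  have hdr : (1 : ℝ) ≤ d := by exact_mod_cast hd1
  have hd0 : (0 : ℝ) < d := by linarith
  obtain ⟨η, hη0, hη1, hiso⟩ := exists_eta s hd1 hns
  have hq : 0 ≤ (d : ℝ) ^ 2 - η ^ 2 / (2 * d) := by
    have e1 : η ^ 2 / (2 * d) ≤ 1 := by
      rw [div_le_one (by positivity)]
      nlinarith
    nlinarith
  obtain ⟨n, hn⟩ : ∃ n : ℕ, (1 - η ^ 2 / (2 * (d : ℝ) ^ 3)) ^ n < δ ^ 2 := by
    refine exists_pow_lt_of_lt_one (by positivity) ?_
    have : 0 < η ^ 2 / (2 * (d : ℝ) ^ 3) := by positivity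
    linarith
  refine ⟨d ^ n, fun i => wprod s n (finFunctionFinEquiv.symm i), Nat.pow_pos hd1, ?_⟩
  have hsum : ∑ _k : Fin (d ^ n), 1 = d ^ n := by simp
  refine theta_le_of _ _ (by rw [hsum]; exact Nat.pow_pos hd1) δ ?_
  intro F hF
  have hFc : (0 : ℝ) < F.card := by exact_mod_cast hF.card_pos
  obtain ⟨x, hx⟩ : ∃ x : ℝ, x = 1 / (2 * (F.card : ℝ)) := ⟨_, rfl⟩
  have hx0 : 0 < x := by rw [hx]; positivity
  set N : ℕ := ⌈(d : ℝ) ^ n * (1 / x)⌉₊ with hN
  obtain ⟨Ω, fΩ, ⟨ω0⟩, mΩ, hΩ⟩ := exists_action hres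
    ((univ ×ˢ (ball s N ×ˢ ball s N)).image (fun p : Fin d × (Γ × Γ) => p.2.1⁻¹ * (s p.1 * p.2.2)) ∪
      (F ×ˢ F).image (fun p => p.1⁻¹ * p.2))
  have hH : ∀ H : Finset Ω, H.card ≤ N →
      (∑ k, ∑ ω ∈ H, if s k • ω ∈ H then (1 : ℝ) else 0) ≤ ((d : ℝ) - η) * H.card := by
    intro H hHN
    refine iso_of_free s _ hiso N (fun k a ha b hb h hh => ?_) H hHN
    refine hΩ _ ?_ h hh
    exact Finset.mem_union_left _ (Finset.mem_image.2 ⟨(k, (a, b)), Finset.mem_product.2
      ⟨mem_univ _, Finset.mem_product.2 ⟨ha, hb⟩⟩, rfl⟩)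
  have hinj : Set.InjOn (fun y : Γ => y • ω0) (F : Set Γ) := by
    intro y hy z hz hyz
    have h1 : (y⁻¹ * z) • ω0 = ω0 := by
      rw [mul_smul, inv_smul_eq_iff]
      exact hyz.symm
    have h2 := hΩ _ (Finset.mem_union_right _ (Finset.mem_image.2 ⟨(y, z), Finset.mem_product.2
      ⟨hy, hz⟩, rfl⟩)) ω0 h1
    exact (inv_mul_eq_one.1 h2)
  set A : Finset Ω := F.image (fun y : Γ => y • ω0) with hA
  have hAc : A.card = F.card := Finset.card_image_of_injOn hinj
  set μ : Ω → ℝ := fun ω => if ω ∈ A then 1 / (F.card : ℝ) else 0 with hμ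
  have hμ0 : ∀ ω, 0 ≤ μ ω := by
    intro ω
    simp only [hμ]
    split_ifs
    · positivity
    · exact le_rfl
  have hμ1 : ∑ ω, μ ω = 1 := by
    simp only [hμ]
    rw [Finset.sum_ite_mem, Finset.univ_inter, Finset.sum_const, hAc, nsmul_eq_mul]
    field_simp
  have hw := min_words s 0 hk0 η hη0 N hH hq n x hx0 (Nat.le_ceil _) δ hδ.le hn.le μ μ
    hμ0 hμ0 hμ1 hμ1
  have hxlt : x < 1 / (F.card : ℝ) := by
    rw [hx]
    apply one_div_lt_one_div_of_lt hFc
    linarith
  have hterm : ∀ v : Fin n → Fin d, ((F.filter (fun y => wprod s n v * y ∈ F)).card : ℝ) *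
      (1 / (F.card : ℝ)) ≤ ∑ ω, if x < μ ω ∧ x < μ (wprod s n v • ω) then
        min (μ ω) (μ (wprod s n v • ω)) else 0 := by
    intro v
    have h1 : ∑ ω ∈ (F.filter (fun y => wprod s n v * y ∈ F)).image (fun y : Γ => y • ω0),
        (1 / (F.card : ℝ)) ≤ ∑ ω, if x < μ ω ∧ x < μ (wprod s n v • ω) then
        min (μ ω) (μ (wprod s n v • ω)) else 0 := by
      have h2 : ∀ ω ∈ (F.filter (fun y => wprod s n v * y ∈ F)).image (fun y : Γ => y • ω0),
          (1 / (F.card : ℝ)) = if x < μ ω ∧ x < μ (wprod s n v • ω) then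
            min (μ ω) (μ (wprod s n v • ω)) else 0 := by
        intro ω hω
        rw [Finset.mem_image] at hω
        obtain ⟨y, hy, rfl⟩ := hω
        rw [Finset.mem_filter] at hy
        have h3 : μ (y • ω0) = 1 / (F.card : ℝ) := by
          simp only [hμ]
          rw [if_pos (Finset.mem_image_of_mem _ hy.1)]
        have h4 : μ (wprod s n v • y • ω0) = 1 / (F.card : ℝ) := by
          simp only [hμ]
          rw [← mul_smul, if_pos (Finset.mem_image_of_mem (fun y : Γ => y • ω0) hy.2)]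
        rw [h3, h4, if_pos ⟨hxlt, hxlt⟩, min_self]
      rw [Finset.sum_congr rfl h2]
      refine Finset.sum_le_sum_of_subset_of_nonneg (Finset.subset_univ _) (fun ω _ _ => ?_)
      split_ifs
      · exact le_min (hμ0 _) (hμ0 _)
      · exact le_rfl
    rw [Finset.sum_const, nsmul_eq_mul, Finset.card_image_of_injOn
      (hinj.mono (fun y hy => (Finset.mem_filter.1 hy).1))] at h1
    exact h1
  have hE : (𝔼 v : Fin n → Fin d, ((F.filter (fun y => wprod s n v * y ∈ F)).card : ℝ) *
      (1 / (F.card : ℝ))) ≤ δ :=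
    (Finset.expect_le_expect (fun v _ => hterm v)).trans hw
  rw [Fintype.expect_eq_sum_div_card, Fintype.card_fun, Fintype.card_fin, Fintype.card_fin,
    ← Finset.sum_mul] at hE
  push_cast at hE
  have hdn : (0 : ℝ) < (d : ℝ) ^ n := by positivity
  rw [div_le_iff₀ hdn, mul_one_div, div_le_iff₀ hFc] at hE
  rw [inside_eq, hsum]
  simp only [one_mul]
  have hsw : ∑ k : Fin (d ^ n), (F.filter
      (fun x => wprod s n (finFunctionFinEquiv.symm k) * x ∈ F)).card =
      ∑ v : Fin n → Fin d, (F.filter (fun y => wprod s n v * y ∈ F)).card :=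
    Fintype.sum_equiv finFunctionFinEquiv.symm _ _ (fun i => rfl)
  rw [hsw]
  push_cast
  exact hE

end Pool.Agent.P325g
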