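import Pool.Agent.Lib.P325g.Basic
import Pool.Agent.Lib.P325f1f.Amen.Defs

/-!
# Amenable groups have `theta = 1`

Sketch. Let `k1, .., kd` be the types of positive weight and `s i = g (k i) ∈ used g w`. For `η > 0` the
Følner condition gives a finite nonempty `F ⊆ used g w` with `(1 - η) |F| ≤ #{x ∈ F | s i * x ∈ F}` for all
`i`. For the image `F'` of `F` in `Γ` (same cardinality) this gives `(1 - η) * n * |F'| ≤ inside g w F'`, so
`1 - η ≤ theta g w` by `inside_le_theta`. Let `η` tend to `0`. For the second statement apply the same to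
`Subgroup.closure (g '' S)` and the types in `S`.
-/

open Finset

namespace Pool.Agent.P325g

open Pool.Agent.P325f1f.Amen

private theorem folner_dest {Γ : Type} [Group Γ] [DecidableEq Γ] {d : ℕ} {s : Fin d → Γ}
    (h : Folner s) {η : ℝ} (hη : 0 < η) :
    ∃ F : Finset Γ, F.Nonempty ∧
      ∀ k, (1 - η) * (F.card : ℝ) ≤ ((F.filter (fun g => s k * g ∈ F)).card : ℝ) := by
  obtain ⟨F, hF, h1⟩ := h η hη
  refine ⟨F, hF, fun k => (h1 k).trans (le_of_eq ?_)⟩
  congr 2
  ext x
  simp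

private theorem le_theta_aux {Γ κ : Type} [Group Γ] [Fintype κ] (g : κ → Γ) (w : κ → ℕ)
    (hw : 0 < ∑ k, w k) (S : Finset κ)
    (h : Amenable (Subgroup.closure (g '' (S : Set κ)))) :
    ((∑ k ∈ S, w k : ℕ) : ℝ) ≤ theta g w * ((∑ k, w k : ℕ) : ℝ) := by
  classical
  have key : ∀ η : ℝ, 0 < η → η < 1 →
      (1 - η) * ((∑ k ∈ S, w k : ℕ) : ℝ) ≤ theta g w * ((∑ k, w k : ℕ) : ℝ) := by
    intro η hη hη1
    let s : Fin S.card → Subgroup.closure (g '' (S : Set κ)) := fun i =>
      ⟨g (S.equivFin.symm i), Subgroup.subset_closure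
        ⟨(S.equivFin.symm i : κ), (S.equivFin.symm i).2, rfl⟩⟩
    obtain ⟨F, hF, h1⟩ := folner_dest (h _ s) hη
    let F' : Finset Γ := F.map ⟨Subtype.val, Subtype.val_injective⟩
    have hcard : F'.card = F.card := Finset.card_map _
    have hc : (0 : ℝ) < F.card := by exact_mod_cast hF.card_pos
    have h2 : ∀ k ∈ S, (1 - η) * (F.card : ℝ) ≤ ((F'.filter (fun x => g k * x ∈ F')).card : ℝ) := by
      intro k hk
      refine (h1 (S.equivFin ⟨k, hk⟩)).trans ?_
      have h3 : ((F.filter (fun x => s (S.equivFin ⟨k, hk⟩) * x ∈ F)).map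
          ⟨Subtype.val, Subtype.val_injective⟩) ⊆ F'.filter (fun x => g k * x ∈ F') := by
        intro y hy
        rw [Finset.mem_map] at hy
        obtain ⟨x, hx, rfl⟩ := hy
        rw [Finset.mem_filter] at hx
        rw [Finset.mem_filter]
        refine ⟨Finset.mem_map.2 ⟨x, hx.1, rfl⟩, Finset.mem_map.2 ⟨_, hx.2, ?_⟩⟩
        simp [s]
      have h4 := Finset.card_le_card h3
      rw [Finset.card_map] at h4
      exact_mod_cast h4
    have h5 : (1 - η) * ((∑ k ∈ S, w k : ℕ) : ℝ) * F.card ≤ (inside g w F' : ℝ) := by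
      rw [inside_eq]
      have h6 : ∑ k ∈ S, w k * (F'.filter (fun x => g k * x ∈ F')).card ≤
          ∑ k, w k * (F'.filter (fun x => g k * x ∈ F')).card :=
        Finset.sum_le_sum_of_subset (Finset.subset_univ S)
      have h7 : (1 - η) * ((∑ k ∈ S, w k : ℕ) : ℝ) * F.card ≤
          ((∑ k ∈ S, w k * (F'.filter (fun x => g k * x ∈ F')).card : ℕ) : ℝ) := by
        push_cast
        rw [mul_comm (1 - η), mul_assoc, Finset.sum_mul]
        exact Finset.sum_le_sum fun k hk =>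
          mul_le_mul_of_nonneg_left (h2 k hk) (Nat.cast_nonneg _)
      exact h7.trans (by exact_mod_cast h6)
    have h8 := h5.trans (inside_le_theta g w hw F')
    rw [hcard] at h8
    exact le_of_mul_le_mul_right h8 hc
  by_contra hcon
  push Not at hcon
  have h0 : 0 ≤ theta g w * ((∑ k, w k : ℕ) : ℝ) := mul_nonneg (theta_nonneg g w) (Nat.cast_nonneg _)
  obtain ⟨a, ha⟩ : ∃ a : ℝ, a = ((∑ k ∈ S, w k : ℕ) : ℝ) := ⟨_, rfl⟩
  obtain ⟨b, hb⟩ : ∃ b : ℝ, b = theta g w * ((∑ k, w k : ℕ) : ℝ) := ⟨_, rfl⟩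
  rw [← ha, ← hb] at key
  rw [← ha, ← hb] at hcon
  rw [← hb] at h0
  have ha0 : 0 < a := lt_of_le_of_lt h0 hcon
  have h1 := key ((a - b) / (2 * a)) (div_pos (by linarith) (by linarith))
    (by rw [div_lt_one (by linarith)]; linarith)
  have h2 : (1 - (a - b) / (2 * a)) * a = a - (a - b) / 2 := by
    field_simp
  rw [h2] at h1
  linarith

theorem theta_of_amenable {Γ κ : Type} [Group Γ] [Fintype κ] (g : κ → Γ) (w : κ → ℕ)
    (hw : 0 < ∑ k, w k) (h : Amenable (used g w)) : theta g w = 1 := by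
  classical
  apply le_antisymm (theta_le_one g w hw)
  have e1 : used g w = Subgroup.closure (g '' ((univ.filter (fun k => 0 < w k) : Finset κ) : Set κ)) := by
    unfold used
    congr 1
    ext x
    simp
  rw [e1] at h
  have h1 := le_theta_aux g w hw _ h
  have e2 : ∑ k ∈ univ.filter (fun k => 0 < w k), w k = ∑ k, w k := by
    apply Finset.sum_subset (Finset.filter_subset _ _)
    intro k _ hk
    rw [Finset.mem_filter] at hk
    push Not at hk
    have := hk (Finset.mem_univ k)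
    omega
  rw [e2] at h1
  have hn : (0 : ℝ) < ((∑ k, w k : ℕ) : ℝ) := by exact_mod_cast hw
  rw [← one_mul ((∑ k, w k : ℕ) : ℝ)] at h1
  exact le_of_mul_le_mul_right (by simpa using h1) hn

theorem le_theta_of_amenable {Γ κ : Type} [Group Γ] [Fintype κ] (g : κ → Γ) (w : κ → ℕ)
    (hw : 0 < ∑ k, w k) (S : Finset κ)
    (h : Amenable (Subgroup.closure (g '' (S : Set κ)))) :
    ((∑ k ∈ S, w k : ℕ) : ℝ) / ((∑ k, w k : ℕ) : ℝ) ≤ theta g w := by
  have hn : (0 : ℝ) < ((∑ k, w k : ℕ) : ℝ) := by exact_mod_cast hw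
  rw [div_le_iff₀ hn]
  exact le_theta_aux g w hw S h

end Pool.Agent.P325g
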