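import Pool.Agent.Lib.P325g.Basic
import Pool.Agent.Lib.P325f1f.Amen.Defs

/-!
# `theta = 1` only for amenable groups

Sketch. Let `H = used g w` and `n = ∑ w`. Given `s 1, .., s d ∈ H` and `η > 0`. Each `s j` is a product of at
most `L` elements `g k` or `(g k)⁻¹` with `0 < w k` (`Subgroup.closure_induction`; `L` common to all `j`). Choose `η'`
with `L * n * η' ≤ η`, `0 < η'`. As `theta = 1` there is a finite nonempty `F ⊆ Γ` with
`(1 - η') * n * |F| ≤ inside g w F`.
(1) We may assume that `F` lies in one coset `H * x`: `F` is the disjoint union of its parts in the cosets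
`H * x` (the classes of `x ∼ y ↔ x * y⁻¹ ∈ H`); for `0 < w k` the elements `x` and `g k * x` are in the same
coset, so `inside` is additive over the parts, and one part satisfies the same inequality. Translate it by
`x⁻¹` on the right: we get `F ⊆ H` (`inside` is invariant under right translations).
(2) For every `k` of positive weight (so `1 ≤ w k`) `#{x ∈ F | g k * x ∉ F} ≤ n * η' * |F|`: the other types
contribute at most `(n - w k) * |F|`. The same for `(g k)⁻¹` (`#{x ∈ F | (g k)⁻¹ * x ∉ F}` is the same number,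
as `x ↦ g k * x` is injective).
(3) By induction on the length, `#{x ∈ F | h * x ∉ F} ≤ length * n * η' * |F|` for a product `h` of such
elements: if `h = a * h'` and `h * x ∉ F` then `h' * x ∉ F` or (`y = h' * x ∈ F` and `a * y ∉ F`).
(4) So `(1 - η) |F| ≤ #{x ∈ F | s j * x ∈ F}`; transport `F` to a `Finset H` (`Finset.subtype` or the preimage
under the coercion).
-/

open Finset

namespace Pool.Agent.P325g

open Pool.Agent.P325f1f.Amen

namespace ThetaBAux

variable {Γ κ : Type} [Group Γ] [Fintype κ]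

/-- the elements of `F` that leave `F` under `h` -/
noncomputable def out (F : Finset Γ) (h : Γ) : ℕ := by
  classical
  exact (F.filter (fun x => h * x ∉ F)).card

open Classical in
theorem out_eq (F : Finset Γ) (h : Γ) : out F h = (F.filter (fun x => h * x ∉ F)).card := rfl

open Classical in
theorem out_add (F : Finset Γ) (h : Γ) :
    (F.filter (fun x => h * x ∈ F)).card + out F h = F.card := by
  rw [out_eq]
  exact Finset.card_filter_add_card_filter_not _

theorem out_one (F : Finset Γ) : out F 1 = 0 := by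
  classical
  rw [out_eq, Finset.card_eq_zero, Finset.filter_eq_empty_iff]
  intro x hx h
  rw [one_mul] at h
  exact h hx

theorem out_mul (F : Finset Γ) (a h : Γ) : out F (a * h) ≤ out F a + out F h := by
  classical
  rw [out_eq, out_eq, out_eq]
  have hsub : F.filter (fun x => a * h * x ∉ F) ⊆
      (F.filter (fun x => h * x ∉ F)) ∪ ((F.filter (fun x => a * x ∉ F)).image (fun y => h⁻¹ * y)) := by
    intro x hx
    rw [Finset.mem_filter] at hx
    rw [Finset.mem_union, Finset.mem_filter, Finset.mem_image]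
    by_cases h1 : h * x ∈ F
    · right
      refine ⟨h * x, ?_, by group⟩
      rw [Finset.mem_filter]
      exact ⟨h1, by rw [← mul_assoc]; exact hx.2⟩
    · left
      exact ⟨hx.1, h1⟩
  refine (Finset.card_le_card hsub).trans ((Finset.card_union_le _ _).trans ?_)
  rw [add_comm]
  exact Nat.add_le_add_right Finset.card_image_le _

theorem out_inv (F : Finset Γ) (a : Γ) : out F a⁻¹ = out F a := by
  classical
  have h1 : (F.filter (fun x => a⁻¹ * x ∈ F)).card = (F.filter (fun x => a * x ∈ F)).card := by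
    apply Finset.card_bij (fun x _ => a⁻¹ * x)
    · intro x hx
      rw [Finset.mem_filter] at hx ⊢
      exact ⟨hx.2, by rw [mul_inv_cancel_left]; exact hx.1⟩
    · intro x _ y _ hxy
      exact mul_left_cancel hxy
    · intro y hy
      rw [Finset.mem_filter] at hy
      refine ⟨a * y, ?_, by rw [inv_mul_cancel_left]⟩
      rw [Finset.mem_filter]
      exact ⟨hy.2, by rw [inv_mul_cancel_left]; exact hy.1⟩
  have h2 := out_add F a
  have h3 := out_add F a⁻¹
  omega

/-- The elements that leave `F` rarely, for all `F` with few leaving edges. -/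
def Few (g : κ → Γ) (w : κ → ℕ) (L : ℕ) (h : Γ) : Prop :=
  ∀ F : Finset Γ, out F h ≤ L * ∑ k, w k * out F (g k)

theorem few_gen (g : κ → Γ) (w : κ → ℕ) {k : κ} (hk : 0 < w k) : Few g w 1 (g k) := by
  intro F
  rw [one_mul]
  calc out F (g k) ≤ w k * out F (g k) := Nat.le_mul_of_pos_left _ hk
    _ ≤ ∑ k, w k * out F (g k) :=
      Finset.single_le_sum (f := fun k => w k * out F (g k)) (fun i _ => Nat.zero_le _)
        (Finset.mem_univ k)

theorem exists_few (g : κ → Γ) (w : κ → ℕ) {h : Γ} (hh : h ∈ used g w) :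
    ∃ L, Few g w L h := by
  unfold used at hh
  induction hh using Subgroup.closure_induction with
  | mem x hx =>
    obtain ⟨k, hk, rfl⟩ := hx
    exact ⟨1, few_gen g w hk⟩
  | one => exact ⟨0, fun F => by rw [out_one]; exact Nat.zero_le _⟩
  | mul x y _ _ hx hy =>
    obtain ⟨L, hL⟩ := hx
    obtain ⟨L', hL'⟩ := hy
    refine ⟨L + L', fun F => ?_⟩
    rw [add_mul]
    exact (out_mul F x y).trans (Nat.add_le_add (hL F) (hL' F))
  | inv x _ hx =>
    obtain ⟨L, hL⟩ := hx
    exact ⟨L, fun F => by rw [out_inv]; exact hL F⟩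

open Classical in
/-- the total of the leaving edges -/
theorem inside_out (g : κ → Γ) (w : κ → ℕ) (F : Finset Γ) :
    inside g w F + ∑ k, w k * out F (g k) = (∑ k, w k) * F.card := by
  rw [inside_eq, ← Finset.sum_add_distrib, Finset.sum_mul]
  refine Finset.sum_congr rfl fun k _ => ?_
  rw [← mul_add, out_add]

open Classical in
/-- the part of `F` in the coset of `x` -/
noncomputable def part (H : Subgroup Γ) (F : Finset Γ) (x : Γ) : Finset Γ :=
  F.filter (fun y => y * x⁻¹ ∈ H)

theorem mem_part {H : Subgroup Γ} {F : Finset Γ} {x y : Γ} :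
    y ∈ part H F x ↔ y ∈ F ∧ y * x⁻¹ ∈ H := by
  classical
  unfold part
  rw [Finset.mem_filter]

open Classical in
/-- the leaving edges of all parts together -/
theorem exists_part (H : Subgroup Γ) (g : κ → Γ) (w : κ → ℕ) (hH : ∀ k, 0 < w k → g k ∈ H)
    (F : Finset Γ) (hF : F.Nonempty) {c : ℝ} (hc : (∑ k, w k * out F (g k) : ℕ) ≤ c * F.card) :
    ∃ F' : Finset H, F'.Nonempty ∧ ((∑ k, w k * out (F'.map ⟨Subtype.val, Subtype.val_injective⟩) (g k) : ℕ) : ℝ) ≤
      c * F'.card := by
  -- classes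
  obtain ⟨cls, hcls⟩ : ∃ cls : Γ → Quotient (QuotientGroup.rightRel H), cls = fun x => Quotient.mk _ x :=
    ⟨_, rfl⟩
  have hrel : ∀ x y : Γ, cls x = cls y ↔ y * x⁻¹ ∈ H := by
    intro x y
    rw [hcls]
    show (Quotient.mk _ x : Quotient (QuotientGroup.rightRel H)) = Quotient.mk _ y ↔ _
    rw [Quotient.eq]
    exact QuotientGroup.rightRel_apply
  obtain ⟨I, hI⟩ : ∃ I : Finset (Quotient (QuotientGroup.rightRel H)), I = F.image cls := ⟨_, rfl⟩
  obtain ⟨P, hP⟩ : ∃ P : Quotient (QuotientGroup.rightRel H) → Finset Γ,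
    P = fun q => F.filter (fun y => cls y = q) := ⟨_, rfl⟩
  have hcard : F.card = ∑ q ∈ I, (P q).card := by
    rw [hP, hI]
    exact Finset.card_eq_sum_card_image cls F
  have hout : ∀ k, 0 < w k → out F (g k) = ∑ q ∈ I, out (P q) (g k) := by
    intro k hk
    have hst : ∀ x, cls (g k * x) = cls x := by
      intro x
      rw [hrel]
      have : x * (g k * x)⁻¹ = (g k)⁻¹ := by group
      rw [this]
      exact H.inv_mem (hH k hk)
    rw [out_eq, Finset.card_eq_sum_card_fiberwise (f := cls) (t := I) (fun x hx => by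
      rw [hI]
      exact Finset.mem_coe.2 (Finset.mem_image_of_mem _ (Finset.mem_filter.1 (Finset.mem_coe.1 hx)).1))]
    refine Finset.sum_congr rfl fun q _ => ?_
    rw [out_eq]
    congr 1
    ext x
    rw [hP]
    simp only [Finset.mem_filter, not_and]
    constructor
    · rintro ⟨⟨h1, h2⟩, h3⟩
      exact ⟨⟨h1, h3⟩, fun h4 => absurd h4 h2⟩
    · rintro ⟨⟨h1, h3⟩, h2⟩
      exact ⟨⟨h1, fun h4 => h2 h4 (by rw [hst, h3])⟩, h3⟩
  have htot : (∑ k, w k * out F (g k)) = ∑ q ∈ I, ∑ k, w k * out (P q) (g k) := by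
    rw [Finset.sum_comm]
    refine Finset.sum_congr rfl fun k _ => ?_
    rcases Nat.eq_zero_or_pos (w k) with h | h
    · simp [h]
    · rw [hout k h, Finset.mul_sum]
  obtain ⟨q, hq, hqle⟩ : ∃ q ∈ I, ((∑ k, w k * out (P q) (g k) : ℕ) : ℝ) ≤ c * (P q).card := by
    by_contra hcon
    push Not at hcon
    have hIne : I.Nonempty := by
      rw [hI]
      exact hF.image _
    have h1 : ∑ q ∈ I, c * ((P q).card : ℝ) < ∑ q ∈ I, ((∑ k, w k * out (P q) (g k) : ℕ) : ℝ) :=
      Finset.sum_lt_sum_of_nonempty hIne hcon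
    rw [← Finset.mul_sum] at h1
    have h2 : ((∑ q ∈ I, (P q).card : ℕ) : ℝ) = F.card := by rw [hcard]
    have h3 : ((∑ q ∈ I, ∑ k, w k * out (P q) (g k) : ℕ) : ℝ) = ((∑ k, w k * out F (g k) : ℕ) : ℝ) := by
      rw [htot]
    push_cast at h1 h2 h3 hc
    rw [h2, h3] at h1
    linarith
  rw [hI, Finset.mem_image] at hq
  obtain ⟨x, hx, rfl⟩ := hq
  -- translate
  have hmem : ∀ y ∈ P (cls x), y * x⁻¹ ∈ H := by
    intro y hy
    rw [hP] at hy
    have := (Finset.mem_filter.1 hy).2
    exact (hrel x y).1 this.symm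
  obtain ⟨Q, hQ⟩ : ∃ Q : Finset Γ, Q = (P (cls x)).image (fun y => y * x⁻¹) := ⟨_, rfl⟩
  have hQmem : ∀ y, y ∈ Q ↔ y * x ∈ P (cls x) := by
    intro y
    rw [hQ, Finset.mem_image]
    constructor
    · rintro ⟨z, hz, rfl⟩
      rw [inv_mul_cancel_right]
      exact hz
    · intro h
      exact ⟨y * x, h, by rw [mul_inv_cancel_right]⟩
  have hQH : ∀ y ∈ Q, y ∈ H := by
    intro y hy
    have := hmem _ ((hQmem y).1 hy)
    rwa [mul_inv_cancel_right] at this
  have hQcard : Q.card = (P (cls x)).card := by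
    rw [hQ]
    exact Finset.card_image_of_injective _ (mul_left_injective _)
  have hQout : ∀ a, out Q a = out (P (cls x)) a := by
    intro a
    rw [out_eq, out_eq]
    apply Finset.card_bij (fun y _ => y * x)
    · intro y hy
      rw [Finset.mem_filter] at hy ⊢
      exact ⟨(hQmem y).1 hy.1, fun h => hy.2 ((hQmem _).2 (by rw [mul_assoc]; exact h))⟩
    · intro y _ z _ hyz
      exact mul_right_cancel hyz
    · intro z hz
      rw [Finset.mem_filter] at hz
      refine ⟨z * x⁻¹, ?_, by rw [inv_mul_cancel_right]⟩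
      rw [Finset.mem_filter]
      refine ⟨(hQmem _).2 (by rw [inv_mul_cancel_right]; exact hz.1), fun h => hz.2 ?_⟩
      have := (hQmem _).1 h
      rwa [mul_assoc, inv_mul_cancel_right] at this
  obtain ⟨F', hF'⟩ : ∃ F' : Finset H, F' = Q.subtype (fun y => y ∈ H) := ⟨_, rfl⟩
  have hmap : F'.map ⟨Subtype.val, Subtype.val_injective⟩ = Q := by
    rw [hF']
    exact Finset.subtype_map_of_mem hQH
  have hF'card : F'.card = Q.card := by
    rw [← hmap, Finset.card_map]
  refine ⟨F', ?_, ?_⟩
  · rw [← Finset.card_pos, hF'card, hQcard, Finset.card_pos]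
    refine ⟨x, ?_⟩
    rw [hP]
    exact Finset.mem_filter.2 ⟨hx, rfl⟩
  · rw [hmap, hF'card, hQcard]
    simp only [hQout]
    exact hqle

end ThetaBAux

open ThetaBAux

theorem amenable_of_theta {Γ κ : Type} [Group Γ] [Fintype κ] (g : κ → Γ) (w : κ → ℕ)
    (hw : 0 < ∑ k, w k) (h : theta g w = 1) : Amenable (used g w) := by
  classical
  intro d s η hη
  have hn : (0 : ℝ) < ((∑ k, w k : ℕ) : ℝ) := by exact_mod_cast hw
  choose L hL using fun j => exists_few g w (s j).2
  obtain ⟨M, hM⟩ : ∃ M : ℕ, M = ∑ j, L j := ⟨_, rfl⟩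
  have hLM : ∀ j, L j ≤ M := fun j => by
    rw [hM]
    exact Finset.single_le_sum (f := L) (fun i _ => Nat.zero_le _) (Finset.mem_univ j)
  obtain ⟨c, hc⟩ : ∃ c : ℝ, c = η / ((M : ℝ) + 1) := ⟨_, rfl⟩
  have hc0 : 0 < c := by rw [hc]; positivity
  -- a set with few leaving edges
  obtain ⟨F, hF, hFle⟩ : ∃ F : Finset Γ, F.Nonempty ∧
      ((∑ k, w k * out F (g k) : ℕ) : ℝ) ≤ c * F.card := by
    by_contra hcon
    push Not at hcon
    have hle : theta g w ≤ 1 - c / ((∑ k, w k : ℕ) : ℝ) := by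
      refine theta_le_of g w hw _ fun F hF => ?_
      have h1 := hcon F hF
      have h2 : ((inside g w F : ℕ) : ℝ) + ((∑ k, w k * out F (g k) : ℕ) : ℝ) =
          ((∑ k, w k : ℕ) : ℝ) * F.card := by
        have := inside_out g w F
        exact_mod_cast this
      have h3 : (1 - c / ((∑ k, w k : ℕ) : ℝ)) * ((∑ k, w k : ℕ) : ℝ) * F.card =
          ((∑ k, w k : ℕ) : ℝ) * F.card - c * F.card := by
        field_simp
      rw [h3]
      linarith
    have h4 : 0 < c / ((∑ k, w k : ℕ) : ℝ) := by positivity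
    linarith
  obtain ⟨F', hF', hF'le⟩ := exists_part (used g w) g w
    (fun k hk => Subgroup.subset_closure ⟨k, hk, rfl⟩) F hF hFle
  refine ⟨F', hF', fun j => ?_⟩
  obtain ⟨Q, hQ⟩ : ∃ Q : Finset Γ, Q = F'.map ⟨Subtype.val, Subtype.val_injective⟩ := ⟨_, rfl⟩
  rw [← hQ] at hF'le
  have hmemQ : ∀ y : used g w, (y : Γ) ∈ Q ↔ y ∈ F' := by
    intro y
    rw [hQ, Finset.mem_map]
    constructor
    · rintro ⟨z, hz, hzy⟩
      have : z = y := Subtype.ext hzy
      rwa [← this]
    · intro hy
      exact ⟨y, hy, rfl⟩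
  have hQcard : Q.card = F'.card := by rw [hQ, Finset.card_map]
  have h1 := hL j Q
  have h2 : ((out Q (s j : Γ) : ℕ) : ℝ) ≤ η * F'.card := by
    have h3 : ((out Q (s j : Γ) : ℕ) : ℝ) ≤ (L j : ℝ) * ((∑ k, w k * out Q (g k) : ℕ) : ℝ) := by
      exact_mod_cast h1
    have h4 : (L j : ℝ) ≤ M := by exact_mod_cast hLM j
    have h5 : (0 : ℝ) ≤ ((∑ k, w k * out Q (g k) : ℕ) : ℝ) := Nat.cast_nonneg _
    have hF0 : (0 : ℝ) ≤ F'.card := Nat.cast_nonneg _
    calc ((out Q (s j : Γ) : ℕ) : ℝ) ≤ (L j : ℝ) * ((∑ k, w k * out Q (g k) : ℕ) : ℝ) := h3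
      _ ≤ ((M : ℝ) + 1) * (c * F'.card) := by
          apply mul_le_mul _ hF'le h5 (by positivity)
          linarith
      _ = η * F'.card := by
          rw [hc]
          field_simp
  have h6 : (F'.filter (fun x => s j * x ∈ F')).card = (Q.filter (fun x => (s j : Γ) * x ∈ Q)).card := by
    refine Finset.card_bij (fun (x : used g w) _ => (x : Γ)) ?_ ?_ ?_
    · intro x hx
      rw [Finset.mem_filter] at hx ⊢
      refine ⟨(hmemQ x).2 hx.1, ?_⟩
      have := (hmemQ (s j * x)).2 hx.2
      exact this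
    · intro x _ y _ hxy
      exact Subtype.ext hxy
    · intro y hy
      rw [Finset.mem_filter] at hy
      have hy1 := hy.1
      rw [hQ, Finset.mem_map] at hy1
      obtain ⟨z, hz, hzy⟩ := hy1
      have hzy' : (z : Γ) = y := hzy
      refine ⟨z, ?_, hzy'⟩
      rw [Finset.mem_filter]
      refine ⟨hz, (hmemQ (s j * z)).1 ?_⟩
      show (s j : Γ) * (z : Γ) ∈ Q
      rw [hzy']
      exact hy.2
  have h7 := out_add Q (s j : Γ)
  have h8 : (((Q.filter (fun x => (s j : Γ) * x ∈ Q)).card : ℕ) : ℝ) + ((out Q (s j : Γ) : ℕ) : ℝ) =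
      F'.card := by
    rw [← hQcard]
    exact_mod_cast h7
  have h9 : ((F'.filter (fun x => s j * x ∈ F')).card : ℝ) = F'.card - out Q (s j : Γ) := by
    rw [h6]
    linarith
  refine le_trans ?_ (le_of_eq ?_) (b := ((F'.filter (fun x => s j * x ∈ F')).card : ℝ))
  · rw [h9]
    linarith
  · congr!

end Pool.Agent.P325g
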