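import Pool.Agent.Lib.P325g.GHard
import Pool.Agent.Lib.P325g.EasyS
import Pool.Agent.Lib.P325g.ThetaA
import Pool.Agent.Lib.P325g.ThetaB
import Pool.Agent.Lib.P325g.Small
import Pool.Agent.Lib.P325g.RaagEasy

/-!
# The threshold of unique games played with elements of a group
-/

open Finset

namespace Pool.Agent.P325g

open Pool.Agent.P325f1f.Dich Pool.Agent.P325f1f.Amen Pool.Agent.P325c Pool.Agent.P325t

theorem theta_lt_one_iff {Γ κ : Type} [Group Γ] [Fintype κ] (g : κ → Γ) (w : κ → ℕ)
    (hw : 0 < ∑ k, w k) : theta g w < 1 ↔ ¬ Amenable (used g w) := by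
  constructor
  · intro h1 h2
    rw [theta_of_amenable g w hw h2] at h1
    exact lt_irrefl _ h1
  · intro h
    refine lt_of_le_of_ne (theta_le_one g w hw) fun h1 => h (amenable_of_theta g w hw h1)

end Pool.Agent.P325g
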