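import Pool.Agent.Lib.P325g.OwnDef
import Pool.Agent.Lib.P325c.Hard

/-!
# The abstract hard half, including the boundary

Sketch. This is the proof of `Pool.Agent.P325c.hardC` with `Own` in place of `own_bound`. We may assume `c1 ≤ m`
(replace `c1` by `min c1 m`; `Own` is monotone in `c1` as `0 ≤ r`). `n = ∑ w`, `θ2 = min (m / (40 n)) 1`,
`η2 = (θ2 ^ 2) ^ (4 t)`, `θ1 = min θ2 (c1 η2 / (20 n))`, `η1 = (θ1 ^ 2) ^ (4 t)`, `N = ⌈2 / η1⌉₊`,
`c = c1 η2 / (4 n)`. Take `Ω`, `σ` from `model N`. Scale 1 (some label has weight greater than `η2`):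
the sum of `w a.1 * hsum` plus `c1 η2` is at most `2 m` by `Own` for `A = {μ > η1}`, `B = {ν > η1}`, and the
errors add up to `5 θ1 * 2 n ≤ c1 η2 / 2`. Scale 2: all `hsum` vanish and the errors add up to at most
`m / 4 ≤ 2 m - c1 η2 / 2`. The first inequality of the conclusion is `typed_complete` as in `hardC`. The lemmas
of `Pool.Agent.P325c.HardAux` can be used.
-/

open Finset

namespace Pool.Agent.P325g

open Pool.Agent.P325f1f.Dich Pool.Agent.P325c

open Pool.Agent.P325t Pool.Agent.P325c.HardAux in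
theorem hardAbs {κ : Type} [Fintype κ] (w : κ → ℕ) (hw : 0 < ∑ k, w k) (m c1 : ℝ) (hm : 0 < m)
    (hc1 : 0 < c1) (P : ∀ Ω : Type, (κ → Equiv.Perm Ω) → Prop)
    (model : ∀ N : ℕ, ∃ (Ω : Type) (_ : Fintype Ω) (_ : Nonempty Ω) (σ : κ → Equiv.Perm Ω),
      P Ω σ ∧ Own σ w m c1 N) (t : ℕ) (ht : 1 ≤ t) :
    ∃ (Ω : Type) (_ : Fintype Ω) (_ : Nonempty Ω) (σ : κ → Equiv.Perm Ω) (c M : ℝ), 0 < c ∧
      P Ω σ ∧
      ∀ (U W Λ ι : Type) [Fintype Λ] [DecidableEq Λ] [Nonempty Λ] [Fintype ι] [Nonempty ι]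
        (I : Game U W Λ ι),
        (1 - 1 / (t : ℝ)) * I.value ≤ (commGame t w σ I).value ∧
        (commGame t w σ I).value ≤ m / ((∑ k, w k : ℕ) : ℝ) - c + M * I.value := by
  classical
  have hn0 : 0 < ∑ k, w k := hw
  have hn : (0 : ℝ) < ((∑ k, w k : ℕ) : ℝ) := by exact_mod_cast hn0
  set n : ℝ := ((∑ k, w k : ℕ) : ℝ) with hndef
  obtain ⟨c1', hc1'0, hc1'1, hc1'm⟩ : ∃ c1' : ℝ, 0 < c1' ∧ c1' ≤ c1 ∧ c1' ≤ m :=
    ⟨min c1 m, lt_min hc1 hm, min_le_left _ _, min_le_right _ _⟩
  have hm0 : 0 < m := hm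
  -- the scales
  set θ2 : ℝ := min (m / (40 * n)) 1 with hθ2
  have h20 : 0 < θ2 := lt_min (by positivity) one_pos
  have h21 : θ2 ≤ 1 := min_le_right _ _
  have h2l : 5 * θ2 * (2 * n) ≤ m / 4 := by
    have := min_le_left (m / (40 * n)) 1
    rw [← hθ2, le_div_iff₀ (by positivity)] at this
    linarith
  set η2 : ℝ := (θ2 ^ 2) ^ (4 * t) with hη2
  have hη20 : 0 < η2 := by positivity
  have hη21 : η2 ≤ 1 := pow_le_one₀ (by positivity) (pow_le_one₀ h20.le h21)
  set θ1 : ℝ := min θ2 (c1' * η2 / (20 * n)) with hθ1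
  have h10 : 0 < θ1 := lt_min h20 (by positivity)
  have h12 : θ1 ≤ θ2 := min_le_left _ _
  have h1l : 5 * θ1 * (2 * n) ≤ c1' * η2 / 2 := by
    have := min_le_right θ2 (c1' * η2 / (20 * n))
    rw [← hθ1, le_div_iff₀ (by positivity)] at this
    linarith
  set η1 : ℝ := (θ1 ^ 2) ^ (4 * t) with hη1
  have hη10 : 0 < η1 := by positivity
  have hη12 : η1 ≤ η2 := by
    rw [hη1, hη2]
    gcongr
  set N : ℕ := ⌈2 / η1⌉₊ with hN
  obtain ⟨Ω, fΩ, nΩ, σ, hP, hown⟩ := model N
  have hcardK : (Fintype.card ((a : κ × Bool) × Fin (w a.1)) : ℝ) = 2 * n := by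
    rw [card_K, hndef]
    push_cast
    ring
  have hneK : Nonempty ((a : κ × Bool) × Fin (w a.1)) := by
    rw [← Fintype.card_pos_iff, card_K]
    omega
  set c : ℝ := c1' * η2 / (4 * n) with hc
  have hc0 : 0 < c := by positivity
  have hcn : c * (2 * n) = c1' * η2 / 2 := by
    rw [hc]
    field_simp
    ring
  have hmη : c1' * η2 ≤ m := by nlinarith
  obtain ⟨M, hM⟩ := sound_types (J := Bool) ((T0 κ).copies (fun a => w a.1))
    (fun p => lperm σ p.1) t ht
    (fun b => if b then θ1 else θ2) (by rintro (_ | _) <;> simp [h10, h20])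
    (by
      rintro (_ | _)
      · simpa using h21
      · simpa using h12.trans h21) (m / n - c) (by
      rw [sub_nonneg, le_div_iff₀ hn]
      linarith) (by
      intro μ ν hμ hν hμ1 hν1
      -- the sum over the copies
      have hcop : ∀ b : Bool, (∑ p : (a : κ × Bool) × Fin (w a.1),
          (hsum ((T0 κ).copies (fun a => w a.1)) (fun p => lperm σ p.1)
            (((if b then θ1 else θ2) ^ 2) ^ (4 * t)) μ ν p +
            5 * (if b then θ1 else θ2))) =
          (∑ a : κ × Bool, (w a.1 : ℝ) * hsum (T0 κ) (lperm σ)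
            (((if b then θ1 else θ2) ^ 2) ^ (4 * t)) μ ν a) +
            5 * (if b then θ1 else θ2) * (2 * n) := by
        intro b
        rw [Finset.sum_add_distrib, Finset.sum_const, Finset.card_univ, nsmul_eq_mul, hcardK,
          Fintype.sum_sigma]
        congr 1
        · refine Finset.sum_congr rfl (fun a _ => ?_)
          have h1 : ∀ i : Fin (w a.1), hsum ((T0 κ).copies (fun a => w a.1))
              (fun p => lperm σ p.1) (((if b then θ1 else θ2) ^ 2) ^ (4 * t)) μ ν ⟨a, i⟩ =
              hsum (T0 κ) (lperm σ) (((if b then θ1 else θ2) ^ 2) ^ (4 * t)) μ ν a :=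
            fun i => rfl
          rw [Finset.sum_congr rfl (fun i _ => h1 i), Finset.sum_const, Finset.card_univ,
            Fintype.card_fin, nsmul_eq_mul]
        · ring
      by_cases hbig : ∃ ω, η2 < μ () ω ∨ η2 < ν () ω
      · refine ⟨fun _ => true, ?_⟩
        have h1 := hcop true
        simp only [if_true] at h1 ⊢
        rw [h1, hcardK, div_le_iff₀ (by positivity), ← hη1]
        obtain ⟨ω0, hω0⟩ := hbig
        set A : Finset Ω := univ.filter (fun ω => η1 < μ () ω) with hA
        set B : Finset Ω := univ.filter (fun ω => η1 < ν () ω) with hB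
        have hAc := heavy_card (μ ()) (hμ ()) (hμ1 ()) η1 hη10 A
          (fun ω hω => (Finset.mem_filter.1 hω).2)
        have hBc := heavy_card (ν ()) (hν ()) (hν1 ()) η1 hη10 B
          (fun ω hω => (Finset.mem_filter.1 hω).2)
        have hAB : A.card + B.card ≤ N := by
          have h2 : ((A.card + B.card : ℕ) : ℝ) ≤ (N : ℝ) := by
            push_cast
            calc (A.card : ℝ) + B.card ≤ 1 / η1 + 1 / η1 := add_le_add hAc hBc
              _ = 2 / η1 := by ring
              _ ≤ N := Nat.le_ceil _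
          exact_mod_cast h2
        have hsumeq : ∀ a : κ × Bool, hsum (T0 κ) (lperm σ) η1 μ ν a =
            ∑ ω ∈ A, if lperm σ a ω ∈ B then min (μ () ω) (ν () (lperm σ a ω)) else 0 := by
          intro a
          rw [hA, Finset.sum_filter]
          refine Finset.sum_congr rfl (fun ω _ => ?_)
          show (if η1 < μ () ω ∧ η1 < ν () (lperm σ a ω) then _ else _) = _
          have hBm : lperm σ a ω ∈ B ↔ η1 < ν () (lperm σ a ω) := by simp [hB]
          by_cases h3 : η1 < μ () ω
          · by_cases h4 : η1 < ν () (lperm σ a ω)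
            · rw [if_pos ⟨h3, h4⟩, if_pos h3, if_pos (hBm.2 h4)]
            · rw [if_neg (fun h => h4 h.2), if_pos h3, if_neg (fun h => h4 (hBm.1 h))]
          · rw [if_neg (fun h => h3 h.1), if_neg h3]
        have hA1 : ∑ ω ∈ A, μ () ω ≤ 1 := by
          rw [← hμ1 ()]
          exact Finset.sum_le_sum_of_subset_of_nonneg (Finset.subset_univ A)
            (fun ω _ _ => hμ () ω)
        have hB1 : ∑ ω ∈ B, ν () ω ≤ 1 := by
          rw [← hν1 ()]
          exact Finset.sum_le_sum_of_subset_of_nonneg (Finset.subset_univ B)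
            (fun ω _ _ => hν () ω)
        have key : (∑ a : κ × Bool, (w a.1 : ℝ) * hsum (T0 κ) (lperm σ) η1 μ ν a) + c1' * η2 ≤
            2 * m := by
          have h5 : ∀ g : ℝ, η2 ≤ g → ((∃ v ∈ A, g = μ () v) ∨ (∃ v ∈ B, g = ν () v)) →
              (∑ a : κ × Bool, (w a.1 : ℝ) * hsum (T0 κ) (lperm σ) η1 μ ν a) + c1' * η2 ≤
              2 * m := by
            intro g hg1 hg2
            have h6 := hown A B hAB (μ ()) (ν ()) (hμ ()) (hν ()) g hg2
            simp only [hsumeq]
            have h7 : c1' * η2 ≤ c1 * g :=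
              mul_le_mul hc1'1 hg1 hη20.le hc1.le
            have h8 : m * (∑ ω ∈ A, μ () ω + ∑ ω ∈ B, ν () ω) ≤ m * 2 :=
              mul_le_mul_of_nonneg_left (by linarith) hm0.le
            linarith
          rcases hω0 with h | h
          · exact h5 (μ () ω0) h.le (Or.inl ⟨ω0, by
              rw [hA, Finset.mem_filter]
              exact ⟨mem_univ _, hη12.trans_lt h⟩, rfl⟩)
          · exact h5 (ν () ω0) h.le (Or.inr ⟨ω0, by
              rw [hB, Finset.mem_filter]
              exact ⟨mem_univ _, hη12.trans_lt h⟩, rfl⟩)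
        have h9 : (m / n - c) * (2 * n) = 2 * m - c1' * η2 / 2 := by
          rw [sub_mul, hcn]
          field_simp
        rw [h9]
        linarith
      · push Not at hbig
        refine ⟨fun _ => false, ?_⟩
        have h1 := hcop false
        simp only [Bool.false_eq_true, if_false] at h1 ⊢
        rw [h1, hcardK, div_le_iff₀ (by positivity), ← hη2]
        have h2 : ∀ a : κ × Bool, hsum (T0 κ) (lperm σ) η2 μ ν a = 0 := by
          intro a
          refine Finset.sum_eq_zero (fun ω _ => ?_)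
          rw [if_neg]
          rintro ⟨h6, -⟩
          exact absurd h6 (not_lt.2 (hbig ω).1)
        have h3 : ∑ a : κ × Bool, (w a.1 : ℝ) * hsum (T0 κ) (lperm σ) η2 μ ν a = 0 :=
          Finset.sum_eq_zero (fun a _ => by rw [h2 a, mul_zero])
        have h9 : (m / n - c) * (2 * n) = 2 * m - c1' * η2 / 2 := by
          rw [sub_mul, hcn]
          field_simp
        rw [h3, h9]
        linarith)
  refine ⟨Ω, fΩ, nΩ, σ, c, M, hc0, hP, ?_⟩
  intro U W Λ ι _ _ _ _ _ I
  exact ⟨typed_complete t ht ((T0 κ).copies (fun a => w a.1)) (fun p => lperm σ p.1) I,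
    hM U W Λ ι I⟩

end Pool.Agent.P325g
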