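import Pool.Agent.Lib.P325g.Basic
import Pool.Agent.Lib.P325f1f.Amen.Iso

/-!
# Small sets in a suitable finite action are as good as finite sets of the group
-/

open Finset

namespace Pool.Agent.P325g

open Pool.Agent.P325f1f.Amen

open scoped Classical in
theorem exists_lift {Γ κ : Type} [Group Γ] [Fintype κ] (hres : ResFinite Γ) (g : κ → Γ)
    (w : κ → ℕ) (m : ℝ)
    (hm : ∀ F : Finset Γ, F.Nonempty → (inside g w F : ℝ) + 1 ≤ m * F.card) (N : ℕ) :
    ∃ (Ω : Type) (_ : Fintype Ω) (_ : Nonempty Ω) (act : Γ →* Equiv.Perm Ω),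
      ∀ H : Finset Ω, H.Nonempty → H.card ≤ N →
        ((∑ k, w k * (H.filter (fun ω => act (g k) ω ∈ H)).card : ℕ) : ℝ) + 1 ≤ m * H.card := by
  obtain ⟨s, hs⟩ : ∃ s : Fin (Fintype.card κ) → Γ, s = fun i => g ((Fintype.equivFin κ).symm i) :=
    ⟨_, rfl⟩
  have hsk : ∀ k : κ, g k = s (Fintype.equivFin κ k) := by
    intro k
    rw [hs]
    simp
  obtain ⟨B, hB⟩ : ∃ B : Finset Γ, B = (univ ×ˢ (ball s N ×ˢ ball s N)).image
    (fun p => p.2.1⁻¹ * (s p.1 * p.2.2)) := ⟨_, rfl⟩
  obtain ⟨Ω, fΩ, nΩ, mΩ, hΩ⟩ := exists_action hres B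
  refine ⟨Ω, fΩ, nΩ, MulAction.toPermHom Γ Ω, ?_⟩
  intro H
  simp only [MulAction.toPermHom_apply, MulAction.toPerm_apply]
  induction H using Finset.strongInduction with
  | H H ih =>
    intro hHne hN
    obtain ⟨h0, hh0⟩ := hHne
    obtain ⟨C, hCH, hC0, hcl1, hcl2, hCg⟩ := exists_component s H h0 hh0
    by_cases hCeq : C = H
    · subst hCeq
      choose! f hf1 hf2 using hCg
      obtain ⟨F, hF⟩ : ∃ F : Finset Γ, F = C.image f := ⟨_, rfl⟩
      have hinj : Set.InjOn f (C : Set Ω) := by
        intro x hx y hy hxy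
        rw [← hf2 x hx, ← hf2 y hy, hxy]
      have hFc : F.card = C.card := by
        rw [hF]
        exact Finset.card_image_of_injOn hinj
      have hFne : F.Nonempty := ⟨f h0, by rw [hF]; exact Finset.mem_image_of_mem f hC0⟩
      have h1 := hm F hFne
      rw [hFc, inside_eq] at h1
      refine le_trans ?_ h1
      have h2 : ∑ k, w k * (C.filter (fun ω => g k • ω ∈ C)).card ≤
          ∑ k, w k * (F.filter (fun x => g k * x ∈ F)).card := by
        refine Finset.sum_le_sum fun k _ => Nat.mul_le_mul_left _ ?_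
        refine Finset.card_le_card_of_injOn f ?_ (hinj.mono ?_)
        · intro ω hω
          rw [Finset.mem_coe, Finset.mem_filter] at hω ⊢
          obtain ⟨hω1, h⟩ := hω
          refine ⟨by rw [hF]; exact Finset.mem_image_of_mem f hω1, ?_⟩
          rw [hsk] at h ⊢
          have h2 : (f (s (Fintype.equivFin κ k) • ω))⁻¹ * (s (Fintype.equivFin κ k) * f ω) = 1 := by
            refine hΩ _ ?_ h0 ?_
            · rw [hB, Finset.mem_image]
              exact ⟨(Fintype.equivFin κ k, (f (s (Fintype.equivFin κ k) • ω), f ω)),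
                Finset.mem_product.2 ⟨mem_univ _,
                Finset.mem_product.2 ⟨ball_mono s hN (hf1 _ h), ball_mono s hN (hf1 _ hω1)⟩⟩, rfl⟩
            · rw [mul_smul, mul_smul, hf2 ω hω1]
              rw [inv_smul_eq_iff, hf2 _ h]
          have h3 : s (Fintype.equivFin κ k) * f ω = f (s (Fintype.equivFin κ k) • ω) := by
            rw [inv_mul_eq_one] at h2
            exact h2.symm
          rw [h3, hF]
          exact Finset.mem_image_of_mem f h
        · intro ω hω
          rw [Finset.mem_coe, Finset.mem_filter] at hω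
          exact hω.1
      have h3 : ((∑ k, w k * (C.filter (fun ω => g k • ω ∈ C)).card : ℕ) : ℝ) ≤
          ((∑ k, w k * (F.filter (fun x => g k * x ∈ F)).card : ℕ) : ℝ) := by
        exact_mod_cast h2
      linarith
    · have hss : C ⊂ H := Finset.ssubset_iff_subset_ne.2 ⟨hCH, hCeq⟩
      have hss' : H \ C ⊂ H := Finset.sdiff_ssubset hCH ⟨h0, hC0⟩
      have hne' : (H \ C).Nonempty := by
        rw [Finset.sdiff_nonempty]
        intro hle
        exact hCeq (Finset.Subset.antisymm hCH hle)
      have i1 := ih C hss ⟨h0, hC0⟩ ((Finset.card_le_card hCH).trans hN)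
      have i2 := ih (H \ C) hss' hne' ((Finset.card_le_card hss'.1).trans hN)
      have hcard : (H.card : ℝ) = C.card + (H \ C).card := by
        have := Finset.card_sdiff_add_card_eq_card hCH
        rw [← this]
        push_cast
        ring
      rw [hcard]
      have hsplit : ∑ k, w k * (H.filter (fun ω => g k • ω ∈ H)).card =
          ∑ k, w k * (C.filter (fun ω => g k • ω ∈ C)).card +
          ∑ k, w k * ((H \ C).filter (fun ω => g k • ω ∈ H \ C)).card := by
        rw [← Finset.sum_add_distrib]
        refine Finset.sum_congr rfl (fun k _ => ?_)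
        rw [← mul_add]
        congr 1
        rw [← Finset.card_union_of_disjoint]
        · congr 1
          ext ω
          simp only [Finset.mem_filter, Finset.mem_union, Finset.mem_sdiff]
          rw [hsk]
          constructor
          · rintro ⟨h1, h2⟩
            by_cases h : ω ∈ C
            · exact Or.inl ⟨h, hcl1 _ ω h h2⟩
            · exact Or.inr ⟨⟨h1, h⟩, h2, fun h' => h (hcl2 _ ω h1 h')⟩
          · rintro (⟨h1, h2⟩ | ⟨⟨h1, h2⟩, h3, h4⟩)
            · exact ⟨hCH h1, hCH h2⟩
            · exact ⟨h1, h3⟩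
        · rw [Finset.disjoint_left]
          intro ω h1 h2
          rw [Finset.mem_filter] at h1 h2
          exact (Finset.mem_sdiff.1 h2.1).2 h1.1
      rw [hsplit]
      push_cast at i1 i2 ⊢
      linarith

end Pool.Agent.P325g
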