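import Pool.Agent.Lib.P325g.OwnDef

/-!
# Pairs of sets of labels

Sketch. Put `U = A ∪ B`, `V = A ∩ B`. For every permutation `τ` and all `ω`, with `a = 1` if `ω ∈ A` etc.,
`[ω ∈ A, τ ω ∈ B] + [ω ∈ B, τ ω ∈ A] ≤ [ω ∈ U, τ ω ∈ U] + [ω ∈ V, τ ω ∈ V]` (16 cases). The number of
`ω ∈ A` with `(τ)⁻¹ ω ∈ B` is the number of `ω ∈ B` with `τ ω ∈ A`. So for each `k` the letters `(k, true)`
and `(k, false)` together contribute at most
`w k * (#{ω ∈ U | σ k ω ∈ U} + #{ω ∈ V | σ k ω ∈ V})`. Now use `h` for `U` and, if `V` is nonempty, for `V`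
(if `V` is empty its term is `0`), and `|U| + |V| = |A| + |B|`.
-/

open Finset

namespace Pool.Agent.P325g

open Pool.Agent.P325c

open scoped Classical in
theorem pair_count_aux {Ω : Type} (τ : Equiv.Perm Ω) (A B : Finset Ω) :
    (A.filter (fun ω => τ ω ∈ B)).card + (A.filter (fun ω => τ⁻¹ ω ∈ B)).card ≤
      ((A ∪ B).filter (fun ω => τ ω ∈ A ∪ B)).card +
        ((A ∩ B).filter (fun ω => τ ω ∈ A ∩ B)).card := by
  have hb : (A.filter (fun ω => τ⁻¹ ω ∈ B)).card = (B.filter (fun ω => τ ω ∈ A)).card := by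
    refine Finset.card_bij (fun ω _ => τ⁻¹ ω) ?_ ?_ ?_
    · intro ω hω
      rw [Finset.mem_filter] at hω ⊢
      refine ⟨hω.2, ?_⟩
      show τ (τ.symm ω) ∈ A
      rw [Equiv.apply_symm_apply]
      exact hω.1
    · intro x _ y _ hxy
      exact (τ⁻¹).injective hxy
    · intro ω hω
      rw [Finset.mem_filter] at hω
      refine ⟨τ ω, ?_, ?_⟩
      · rw [Finset.mem_filter]
        refine ⟨hω.2, ?_⟩
        show τ.symm (τ ω) ∈ B
        rw [Equiv.symm_apply_apply]
        exact hω.1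
      · exact Equiv.symm_apply_apply τ ω
  rw [hb, ← Finset.card_union_add_card_inter]
  refine Nat.add_le_add (Finset.card_le_card ?_) (Finset.card_le_card ?_)
  · intro ω hω
    rw [Finset.mem_union, Finset.mem_filter, Finset.mem_filter] at hω
    rw [Finset.mem_filter, Finset.mem_union, Finset.mem_union]
    tauto
  · intro ω hω
    rw [Finset.mem_inter, Finset.mem_filter, Finset.mem_filter] at hω
    rw [Finset.mem_filter, Finset.mem_inter, Finset.mem_inter]
    tauto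

open scoped Classical in
theorem pair_count {κ Ω : Type} [Fintype κ] (σ : κ → Equiv.Perm Ω) (w : κ → ℕ) (m : ℝ) (N : ℕ)
    (h : ∀ H : Finset Ω, H.Nonempty → H.card ≤ N →
      ((∑ k, w k * (H.filter (fun ω => σ k ω ∈ H)).card : ℕ) : ℝ) + 1 ≤ m * H.card)
    (A B : Finset Ω) (hAB : A.card + B.card ≤ N) (hne : A.Nonempty ∨ B.Nonempty) :
    ((∑ a : κ × Bool, w a.1 * (A.filter (fun ω => lperm σ a ω ∈ B)).card : ℕ) : ℝ) + 1 ≤
      m * ((A.card : ℝ) + B.card) := by
  have hcard : (A ∪ B).card + (A ∩ B).card = A.card + B.card :=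
    Finset.card_union_add_card_inter A B
  have hsum : (∑ a : κ × Bool, w a.1 * (A.filter (fun ω => lperm σ a ω ∈ B)).card) ≤
      (∑ k, w k * ((A ∪ B).filter (fun ω => σ k ω ∈ A ∪ B)).card) +
        ∑ k, w k * ((A ∩ B).filter (fun ω => σ k ω ∈ A ∩ B)).card := by
    rw [Fintype.sum_prod_type, ← Finset.sum_add_distrib]
    refine Finset.sum_le_sum fun k _ => ?_
    rw [Fintype.sum_bool, ← Nat.mul_add, ← Nat.mul_add]
    refine Nat.mul_le_mul_left _ ?_
    exact pair_count_aux (σ k) A B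
  have hU := h (A ∪ B) (Finset.union_nonempty.2 hne) (by omega)
  have hV : ((∑ k, w k * ((A ∩ B).filter (fun ω => σ k ω ∈ A ∩ B)).card : ℕ) : ℝ) ≤
      m * (A ∩ B).card := by
    rcases (A ∩ B).eq_empty_or_nonempty with h0 | h1
    · rw [h0]
      simp
    · have := h (A ∩ B) h1 (by omega)
      linarith
  have hsum' : ((∑ a : κ × Bool, w a.1 * (A.filter (fun ω => lperm σ a ω ∈ B)).card : ℕ) : ℝ) ≤
      ((∑ k, w k * ((A ∪ B).filter (fun ω => σ k ω ∈ A ∪ B)).card : ℕ) : ℝ) +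
        ((∑ k, w k * ((A ∩ B).filter (fun ω => σ k ω ∈ A ∩ B)).card : ℕ) : ℝ) := by
    exact_mod_cast hsum
  have hc : ((A ∪ B).card : ℝ) + ((A ∩ B).card : ℝ) = (A.card : ℝ) + B.card := by
    exact_mod_cast hcard
  rw [← hc, mul_add]
  linarith

end Pool.Agent.P325g
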