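import Pool.Agent.Lib.P325g.OwnDef

/-!
# From counting to weights (layer cake)

Sketch. Prove, by induction on `|A| + |B|`, the inequality of `Own` (with `c1 = 1`) for all `r` with `r = 0`
or `r = μ v` for some `v ∈ A` or `r = ν v` for some `v ∈ B`. If `A` and `B` are empty it is `0 ≤ 0` (only
`r = 0` possible). Otherwise let `s` be the least of the numbers `μ v` (`v ∈ A`), `ν v` (`v ∈ B`), put
`μ' = max 0 (μ - s)`, `ν' = max 0 (ν - s)` and let `A' = {v ∈ A | μ v ≠ s}`, `B' = {v ∈ B | ν v ≠ s}`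
(one of them is strictly smaller). For `ω ∈ A` with `lperm σ a ω ∈ B` we have
`min (μ ω) (ν (lperm σ a ω)) = s + min (μ' ω) (ν' (lperm σ a ω))`, and the last term is `0` unless
`ω ∈ A'` and `lperm σ a ω ∈ B'`. So the sum is `s * (number of pairs) + (the sum for A', B', μ', ν')`, the
number of pairs is at most `m * (|A| + |B|) - 1` by `h`, and `r - s` is admissible for `A', B', μ', ν'` if
`r ≠ 0` (it is `0` if `r = s`); for `r = 0` use `r' = 0` and drop the gain `- s`. Compare
`Pool.Agent.P325f1f.Amen.layer_cake`.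
-/

open Finset

namespace Pool.Agent.P325g

open Pool.Agent.P325c

namespace PairLayerAux

open scoped Classical in
theorem layer {κ Ω : Type} [Fintype κ] (σ : κ → Equiv.Perm Ω) (w : κ → ℕ) (m : ℝ) (N : ℕ)
    (h : ∀ A B : Finset Ω, A.card + B.card ≤ N → A.Nonempty ∨ B.Nonempty →
      ((∑ a : κ × Bool, w a.1 * (A.filter (fun ω => lperm σ a ω ∈ B)).card : ℕ) : ℝ) + 1 ≤
        m * ((A.card : ℝ) + B.card)) (n : ℕ) : ∀ A B : Finset Ω, A.card + B.card = n → n ≤ N →
    ∀ (μ ν : Ω → ℝ), (∀ ω, 0 ≤ μ ω) → (∀ ω, 0 ≤ ν ω) →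
    ∀ r : ℝ, (r = 0 ∨ (∃ v ∈ A, r = μ v) ∨ (∃ v ∈ B, r = ν v)) →
      (∑ a : κ × Bool, (w a.1 : ℝ) *
          ∑ ω ∈ A, if lperm σ a ω ∈ B then min (μ ω) (ν (lperm σ a ω)) else 0) + r ≤
        m * (∑ ω ∈ A, μ ω + ∑ ω ∈ B, ν ω) := by
  induction n using Nat.strong_induction_on with
  | _ n ih =>
    intro A B hn hN μ ν hμ hν r hr
    rcases Nat.eq_zero_or_pos n with h0 | h0
    · have hA : A = ∅ := Finset.card_eq_zero.1 (by omega)
      have hB : B = ∅ := Finset.card_eq_zero.1 (by omega)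
      subst hA hB
      rcases hr with hr | ⟨v, hv, _⟩ | ⟨v, hv, _⟩
      · subst hr; simp
      · simp at hv
      · simp at hv
    have hne : A.Nonempty ∨ B.Nonempty := by
      by_contra hcon
      push Not at hcon
      rw [hcon.1, hcon.2] at hn
      simp at hn
      omega
    have hTne : (A.image μ ∪ B.image ν).Nonempty := by
      rcases hne with h1 | h1
      · exact (h1.image μ).mono Finset.subset_union_left
      · exact (h1.image ν).mono Finset.subset_union_right
    obtain ⟨s, hs⟩ : ∃ s, s = (A.image μ ∪ B.image ν).min' hTne := ⟨_, rfl⟩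
    have hsA : ∀ ω ∈ A, s ≤ μ ω := by
      intro ω hω
      rw [hs]
      exact Finset.min'_le _ _ (Finset.mem_union_left _ (Finset.mem_image_of_mem _ hω))
    have hsB : ∀ ω ∈ B, s ≤ ν ω := by
      intro ω hω
      rw [hs]
      exact Finset.min'_le _ _ (Finset.mem_union_right _ (Finset.mem_image_of_mem _ hω))
    have hsm : (∃ v ∈ A, μ v = s) ∨ (∃ v ∈ B, ν v = s) := by
      have h1 := Finset.min'_mem _ hTne
      rw [← hs, Finset.mem_union, Finset.mem_image, Finset.mem_image] at h1
      exact h1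
    have hs0 : 0 ≤ s := by
      rcases hsm with ⟨v, _, h1⟩ | ⟨v, _, h1⟩
      · rw [← h1]; exact hμ v
      · rw [← h1]; exact hν v
    obtain ⟨μ', hμ'⟩ : ∃ f : Ω → ℝ, f = fun ω => max 0 (μ ω - s) := ⟨_, rfl⟩
    obtain ⟨ν', hν'⟩ : ∃ f : Ω → ℝ, f = fun ω => max 0 (ν ω - s) := ⟨_, rfl⟩
    have eA : ∀ ω ∈ A, μ ω = s + μ' ω := by
      intro ω hω
      rw [hμ']
      simp only
      rw [max_eq_right (by linarith [hsA ω hω])]
      ring
    have eB : ∀ ω ∈ B, ν ω = s + ν' ω := by
      intro ω hω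
      rw [hν']
      simp only
      rw [max_eq_right (by linarith [hsB ω hω])]
      ring
    obtain ⟨A', hA'⟩ : ∃ A' : Finset Ω, A' = A.filter (fun ω => μ ω ≠ s) := ⟨_, rfl⟩
    obtain ⟨B', hB'⟩ : ∃ B' : Finset Ω, B' = B.filter (fun ω => ν ω ≠ s) := ⟨_, rfl⟩
    have cA : A'.card ≤ A.card := by rw [hA']; exact Finset.card_filter_le _ _
    have cB : B'.card ≤ B.card := by rw [hB']; exact Finset.card_filter_le _ _
    have hlt : A'.card + B'.card < n := by
      rcases hsm with ⟨v, hv, h1⟩ | ⟨v, hv, h1⟩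
      · have : A'.card < A.card := by
          rw [hA']
          apply Finset.card_lt_card
          rw [Finset.filter_ssubset]
          exact ⟨v, hv, by simp [h1]⟩
        omega
      · have : B'.card < B.card := by
          rw [hB']
          apply Finset.card_lt_card
          rw [Finset.filter_ssubset]
          exact ⟨v, hv, by simp [h1]⟩
        omega
    have sA : ∑ ω ∈ A, μ ω = s * A.card + ∑ ω ∈ A', μ' ω := by
      rw [Finset.sum_congr rfl eA, Finset.sum_add_distrib, Finset.sum_const, nsmul_eq_mul, mul_comm]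
      congr 1
      rw [hA']
      symm
      apply Finset.sum_filter_of_ne
      intro ω hω h1 h2
      apply h1
      have := eA ω hω
      linarith
    have sB : ∑ ω ∈ B, ν ω = s * B.card + ∑ ω ∈ B', ν' ω := by
      rw [Finset.sum_congr rfl eB, Finset.sum_add_distrib, Finset.sum_const, nsmul_eq_mul, mul_comm]
      congr 1
      rw [hB']
      symm
      apply Finset.sum_filter_of_ne
      intro ω hω h1 h2
      apply h1
      have := eB ω hω
      linarith
    have hμ0 : ∀ ω, 0 ≤ μ' ω := by intro ω; rw [hμ']; exact le_max_left _ _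
    have hν0 : ∀ ω, 0 ≤ ν' ω := by intro ω; rw [hν']; exact le_max_left _ _
    have key : ∀ a : κ × Bool,
        (∑ ω ∈ A, if lperm σ a ω ∈ B then min (μ ω) (ν (lperm σ a ω)) else 0) =
          s * ((A.filter (fun ω => lperm σ a ω ∈ B)).card : ℝ) +
          ∑ ω ∈ A', if lperm σ a ω ∈ B' then min (μ' ω) (ν' (lperm σ a ω)) else 0 := by
      intro a
      have h1 : ∀ ω ∈ A, (if lperm σ a ω ∈ B then min (μ ω) (ν (lperm σ a ω)) else 0) =
          (if lperm σ a ω ∈ B then s else 0) +
          (if μ ω ≠ s then (if lperm σ a ω ∈ B' then min (μ' ω) (ν' (lperm σ a ω)) else 0) else 0) := by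
        intro ω hω
        by_cases h2 : lperm σ a ω ∈ B
        · rw [if_pos h2, if_pos h2]
          have h3 := eA ω hω
          have h4 := eB _ h2
          rw [h3, h4, min_add_add_left]
          congr 1
          by_cases h5 : μ ω = s
          · have h6 : μ' ω = 0 := by linarith
            rw [if_neg (by simp [← h3, h5]), h6]
            exact min_eq_left (hν0 _)
          · rw [if_pos (by rw [← h3]; exact h5)]
            by_cases h7 : ν (lperm σ a ω) = s
            · have h8 : ν' (lperm σ a ω) = 0 := by linarith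
              rw [if_neg (by rw [hB', Finset.mem_filter]; exact fun hh => hh.2 h7), h8]
              exact min_eq_right (hμ0 _)
            · rw [if_pos (by rw [hB', Finset.mem_filter]; exact ⟨h2, h7⟩)]
        · rw [if_neg h2, if_neg h2]
          have h3 : lperm σ a ω ∉ B' := by
            rw [hB', Finset.mem_filter]
            exact fun hh => h2 hh.1
          rw [if_neg h3]
          simp
      rw [Finset.sum_congr rfl h1, Finset.sum_add_distrib]
      congr 1
      · rw [← Finset.sum_filter, Finset.sum_const, nsmul_eq_mul, mul_comm]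
      · rw [hA', Finset.sum_filter]
    have hr' : ∃ r' : ℝ, (r' = 0 ∨ (∃ v ∈ A', r' = μ' v) ∨ (∃ v ∈ B', r' = ν' v)) ∧ r ≤ s + r' := by
      rcases hr with hr | ⟨v, hv, hr⟩ | ⟨v, hv, hr⟩
      · exact ⟨0, Or.inl rfl, by linarith⟩
      · by_cases h1 : μ v = s
        · exact ⟨0, Or.inl rfl, by linarith⟩
        · refine ⟨μ' v, Or.inr (Or.inl ⟨v, ?_, rfl⟩), ?_⟩
          · rw [hA', Finset.mem_filter]; exact ⟨hv, h1⟩
          · rw [hr, eA v hv]
      · by_cases h1 : ν v = s
        · exact ⟨0, Or.inl rfl, by linarith⟩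
        · refine ⟨ν' v, Or.inr (Or.inr ⟨v, ?_, rfl⟩), ?_⟩
          · rw [hB', Finset.mem_filter]; exact ⟨hv, h1⟩
          · rw [hr, eB v hv]
    obtain ⟨r', hr1, hr2⟩ := hr'
    have h1 := ih (A'.card + B'.card) hlt A' B' rfl (by omega) μ' ν' hμ0 hν0 r' hr1
    have h2 := h A B (by omega) hne
    have h3 : (∑ a : κ × Bool, (w a.1 : ℝ) *
          ∑ ω ∈ A, if lperm σ a ω ∈ B then min (μ ω) (ν (lperm σ a ω)) else 0) =
        s * ((∑ a : κ × Bool, w a.1 * (A.filter (fun ω => lperm σ a ω ∈ B)).card : ℕ) : ℝ) +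
        ∑ a : κ × Bool, (w a.1 : ℝ) *
          ∑ ω ∈ A', if lperm σ a ω ∈ B' then min (μ' ω) (ν' (lperm σ a ω)) else 0 := by
      rw [Nat.cast_sum, Finset.mul_sum, ← Finset.sum_add_distrib]
      apply Finset.sum_congr rfl
      intro a _
      rw [key a, Nat.cast_mul]
      ring
    rw [h3, sA, sB]
    have h4 := mul_le_mul_of_nonneg_left h2 hs0
    nlinarith [h1, h4]

end PairLayerAux

open scoped Classical in
theorem own_of_count {κ Ω : Type} [Fintype κ] (σ : κ → Equiv.Perm Ω) (w : κ → ℕ) (m : ℝ)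
    (hm : 0 ≤ m) (N : ℕ)
    (h : ∀ A B : Finset Ω, A.card + B.card ≤ N → A.Nonempty ∨ B.Nonempty →
      ((∑ a : κ × Bool, w a.1 * (A.filter (fun ω => lperm σ a ω ∈ B)).card : ℕ) : ℝ) + 1 ≤
        m * ((A.card : ℝ) + B.card)) : Own σ w m 1 N := by
  intro A B hAB μ ν hμ hν r hr
  have h1 := PairLayerAux.layer σ w m N h (A.card + B.card) A B rfl hAB μ ν hμ hν r (Or.inr hr)
  rw [one_mul]
  exact h1

end Pool.Agent.P325g
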