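import Pool.Agent.Lib.P325g.PhiMin
import Pool.Agent.Lib.P325g.Lift
import Pool.Agent.Lib.P325g.PairCount
import Pool.Agent.Lib.P325g.PairLayer
import Pool.Agent.Lib.P325g.HardAbs
import Pool.Agent.Lib.P325c.Gap

/-!
# The hard half for the elements of a residually finite group, and semidefinite gaps
-/

open Finset
open scoped BigOperators

namespace Pool.Agent.P325g

open Pool.Agent.P325f1f.Dich Pool.Agent.P325f1f.Amen Pool.Agent.P325c Pool.Agent.P325t

theorem playedWith_commGame {Γ κ U W Λ ι Ω : Type} [Group Γ] [Fintype κ] [Fintype Λ]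
    [DecidableEq Λ] [Fintype ι] [Fintype Ω] (t : ℕ) (g : κ → Γ) (w : κ → ℕ)
    (act : Γ →* Equiv.Perm Ω) (I : Game U W Λ ι) :
    PlayedWith g w (commGame t w (fun k => act (g k)) I) := by
  classical
  obtain ⟨c, σ, -, h1, h2⟩ := commutingWith_commGame t (⊥ : SimpleGraph κ) w
    (fun k => act (g k)) (fun k l h => absurd h (by simp)) I
  refine ⟨act, fun e => e.2.1.1.1, ?_, ?_⟩
  · intro e
    show lperm (fun k => act (g k)) e.2.1.1 = _ ∨ lperm (fun k => act (g k)) e.2.1.1 = _
    unfold lperm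
    by_cases h : e.2.1.1.2 = true
    · left
      rw [if_pos h]
    · right
      rw [if_neg h]
  · intro k
    have h4 := HardAux.card_K_filter w k
    have h1 : (univ.filter (fun e : ι × ((a : κ × Bool) × Fin (w a.1)) × (Λ → Ω) ×
        (Λ → Fin t × Ω) => e.2.1.1.1 = k)) = (univ : Finset ι) ×ˢ ((univ.filter
        (fun p : (a : κ × Bool) × Fin (w a.1) => p.1.1 = k)) ×ˢ
          (univ : Finset ((Λ → Ω) × (Λ → Fin t × Ω)))) := by
      ext e
      simp
    have h5 : (univ.filter (fun e : ι × ((a : κ × Bool) × Fin (w a.1)) × (Λ → Ω) ×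
        (Λ → Fin t × Ω) => e.2.1.1.1 = k)).card * ∑ l, w l =
        w k * Fintype.card (ι × ((a : κ × Bool) × Fin (w a.1)) × (Λ → Ω) ×
          (Λ → Fin t × Ω)) := by
      have hcf : (univ.filter
          (fun p : (a : κ × Bool) × Fin (w a.1) => p.1.1 = k)).card = 2 * w k := by
        convert h4
      rw [h1, Finset.card_product, Finset.card_product, hcf, Fintype.card_prod,
        Fintype.card_prod, HardAux.card_K, Finset.card_univ, Finset.card_univ]
      ring
    convert h5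

theorem hardG {Γ κ : Type} [Group Γ] [Fintype κ] (g : κ → Γ) (w : κ → ℕ) (hres : ResFinite Γ)
    (hw : 0 < ∑ k, w k) (hinf : Infinite (used g w)) (t : ℕ) (ht : 1 ≤ t) :
    ∃ (Ω : Type) (_ : Fintype Ω) (_ : Nonempty Ω) (act : Γ →* Equiv.Perm Ω) (c M : ℝ), 0 < c ∧
      ∀ (U W Λ ι : Type) [Fintype Λ] [DecidableEq Λ] [Nonempty Λ] [Fintype ι] [Nonempty ι]
        (I : Game U W Λ ι),
        PlayedWith g w (commGame t w (fun k => act (g k)) I) ∧
        (1 - 1 / (t : ℝ)) * I.value ≤ (commGame t w (fun k => act (g k)) I).value ∧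
        (commGame t w (fun k => act (g k)) I).value ≤ theta g w - c + M * I.value := by
  classical
  have hn : (0 : ℝ) < ((∑ k, w k : ℕ) : ℝ) := by exact_mod_cast hw
  set n : ℝ := ((∑ k, w k : ℕ) : ℝ) with hndef
  set m : ℝ := theta g w * n with hm
  have hone : ∀ F : Finset Γ, F.Nonempty → (inside g w F : ℝ) + 1 ≤ m * F.card :=
    fun F hF => inside_add_one g w hw hinf F hF
  have hm0 : 0 < m := by
    have h1 := hone {1} (Finset.singleton_nonempty _)
    rw [Finset.card_singleton, Nat.cast_one, mul_one] at h1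
    have h2 : (0 : ℝ) ≤ (inside g w ({1} : Finset Γ) : ℝ) := Nat.cast_nonneg _
    linarith
  obtain ⟨Ω, fΩ, nΩ, σ, c, M, hc, ⟨act, hact⟩, h⟩ := hardAbs w hw m 1 hm0 one_pos
    (fun Ω σ => ∃ act : Γ →* Equiv.Perm Ω, σ = fun k => act (g k)) (by
      intro N
      obtain ⟨Ω, fΩ, nΩ, act, hH⟩ := exists_lift hres g w m hone N
      refine ⟨Ω, fΩ, nΩ, fun k => act (g k), ⟨act, rfl⟩, ?_⟩
      refine own_of_count _ w m hm0.le N ?_
      intro A B hAB hne
      exact pair_count (fun k => act (g k)) w m N hH A B hAB hne) t ht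
  subst hact
  refine ⟨Ω, fΩ, nΩ, act, c, M, hc, ?_⟩
  intro U W Λ ι _ _ _ _ _ I
  obtain ⟨h1, h2⟩ := h U W Λ ι I
  refine ⟨playedWith_commGame t g w act I, h1, ?_⟩
  have h3 : m / n = theta g w := by
    rw [hm]
    field_simp
  rw [h3] at h2
  exact h2

theorem gapG {Γ κ : Type} [Group Γ] [Fintype κ] (g : κ → Γ) (w : κ → ℕ) (hres : ResFinite Γ)
    (hw : 0 < ∑ k, w k) (hinf : Infinite (used g w)) (ε : ℝ) (hε : 0 < ε) :
    ∃ (U W Ω ι : Type) (_ : Fintype Ω) (_ : Nonempty Ω) (_ : Fintype ι) (_ : Nonempty ι)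
      (J : Game U W Ω ι) (D : ℕ) (X : U ⊕ W → Ω → Fin D → ℝ),
      PlayedWith g w J ∧ IsSol X ∧ 1 - ε ≤ sdpObj J X ∧ J.value < theta g w := by
  classical
  set ε' : ℝ := min ε 1 with hε'
  have h0 : 0 < ε' := lt_min hε one_pos
  have h1 : ε' ≤ 1 := min_le_right _ _
  obtain ⟨t, ht⟩ := exists_nat_gt (2 / ε')
  have ht2 : (2 : ℝ) < t := by
    refine lt_of_le_of_lt ?_ ht
    rw [le_div_iff₀ h0]
    linarith
  have ht1 : 1 ≤ t := by
    have : (1 : ℝ) ≤ t := by linarith
    exact_mod_cast this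
  obtain ⟨Ω, _, _, act, c, M, hc, hgame⟩ := hardG g w hres hw hinf t ht1
  obtain ⟨U, W, Λ, ι, _, _, _, _, _, I, D, X, hX, hobj, hval⟩ :=
    gap_games (1 - ε' / 2) (c / (2 * (|M| + 1))) (by linarith) (by positivity)
  obtain ⟨hT, hcomp, hsound⟩ := hgame U W Λ ι I
  have hpos : 0 < I.value := value_pos I
  have htr : 1 / (t : ℝ) < ε' / 2 := by
    rw [div_lt_iff₀ (by linarith)]
    rw [div_lt_iff₀ h0] at ht
    linarith
  have hκ : Nonempty ((a : κ × Bool) × Fin (w a.1)) := by
    by_contra hcon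
    have h2 : ∑ k, w k = 0 := by
      refine Finset.sum_eq_zero fun k _ => ?_
      by_contra h3
      exact hcon ⟨⟨(k, true), ⟨0, Nat.pos_of_ne_zero h3⟩⟩⟩
    omega
  have hne : Nonempty (Fin t × Ω) := ⟨(⟨0, ht1⟩, Classical.arbitrary Ω)⟩
  refine ⟨_, _, Ω, _, inferInstance, inferInstance, inferInstance, inferInstance,
    commGame t w (fun k => act (g k)) I, D, typedSol Unit Unit Ω X, hT, typedSol_isSol hX, ?_, ?_⟩
  · have h2 := typedSol_obj t ht1 ((T0 κ).copies (fun a => w a.1))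
      (fun p => lperm (fun k => act (g k)) p.1) I hX
    refine le_trans ?_ h2
    have h3 : (1 - ε' / 2) * (1 - ε' / 2) ≤ (1 - 1 / (t : ℝ)) * sdpObj I X := by
      refine mul_le_mul (by linarith) hobj (by linarith) (by linarith)
    have h4 : ε' ≤ ε := min_le_left _ _
    nlinarith
  · have h2 : M * I.value ≤ c / 2 := by
      have h3 : M * I.value ≤ |M| * (c / (2 * (|M| + 1))) := by
        refine (mul_le_mul_of_nonneg_right (le_abs_self M) hpos.le).trans ?_
        exact mul_le_mul_of_nonneg_left hval (abs_nonneg M)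
      refine h3.trans ?_
      rw [mul_div_assoc', div_le_div_iff₀ (by positivity) two_pos]
      have := abs_nonneg M
      nlinarith
    linarith

end Pool.Agent.P325g
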