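import Mathlib
import Pool.Agent.Lib.P325n.Defs

/-!
# The gap problem for unique games played with fixed elements of a group
-/

namespace Pool.Agent.P325g

open Pool.Agent.P325f1f.Dich Pool.Agent.P325n

/-- The instances over `Fin q` that are played with the elements `g k` of the group `Γ`, acting by
`act`, with frequencies proportional to `w`: every edge `e` has a type `c e`, its constraint is the
action of `g (c e)` or the inverse of it, and the proportion of edges of type `k` is `w k / ∑ w`. -/
def GroupInst {Γ κ : Type} [Group Γ] [Fintype κ] (g : κ → Γ) (w : κ → ℕ) {q : ℕ}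
    (act : Γ →* Equiv.Perm (Fin q)) : Set (Inst q) := by
  classical
  exact {I | ∃ c : Fin I.m → κ,
    (∀ e, I.game.perm e = act (g (c e)) ∨ I.game.perm e = (act (g (c e)))⁻¹) ∧
    ∀ k, (Finset.univ.filter (fun e => c e = k)).card * ∑ l, w l = w k * I.m}

/-- The gap problem for games played with the elements `g k` with frequencies `w` is NP-hard with
completeness `c` and soundness `δ`: for every `ε > 0` with `ε + δ < c` there are a number `q` of labels
and an action of `Γ` on `Fin q` such that it is NP-hard to distinguish the games played with `g`, `w`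
and this action of value at least `c - ε` from those of value at most `δ`. -/
def GroupHard {Γ κ : Type} [Group Γ] [Fintype κ] (c : ℚ) (g : κ → Γ) (w : κ → ℕ) (δ : ℚ) : Prop :=
  ∀ ε : ℚ, 0 < ε → ε + δ < c → ∃ q : ℕ, 0 < q ∧ ∃ act : Γ →* Equiv.Perm (Fin q),
    NPHard {I : Inst q | I ∈ GroupInst g w act ∧ ((c - ε : ℚ) : ℝ) ≤ I.game.value}
      {I : Inst q | I ∈ GroupInst g w act ∧ I.game.value ≤ ((δ : ℚ) : ℝ)}

end Pool.Agent.P325g
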