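import Mathlib
import Pool.Agent.Lib.P325r.TypedMain
import Pool.Agent.Lib.P325g.NPDefs
import Pool.Agent.Lib.P325g.GHard

/-!
# Games played with fixed elements of a group: NP-hardness from the threshold on
-/

open Finset
open scoped BigOperators

namespace Pool.Agent.P325g

open Pool.Agent.P325f1f.Dich Pool.Agent.P325f1f.Amen Pool.Agent.P325c Pool.Agent.P325t
  Pool.Agent.P325n Pool.Agent.P325r

/-- An action transported to `Fin q`. -/
noncomputable def actFin {Γ Ω : Type} [Group Γ] [Fintype Ω] (act : Γ →* Equiv.Perm Ω) :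
    Γ →* Equiv.Perm (Fin (Fintype.card Ω)) :=
  ((Fintype.equivFin Ω).permCongrHom : Equiv.Perm Ω →* Equiv.Perm (Fin (Fintype.card Ω))).comp act

theorem groupInst_of_typed {Γ κ Ω : Type} [Group Γ] [Fintype κ] [Fintype Ω] (g : κ → Γ) (w : κ → ℕ)
    (act : Γ →* Equiv.Perm Ω) (I : Inst (Fintype.card Ω))
    (hI : I ∈ TypedInst (T0 κ) (fun a : κ × Bool => w a.1)
      (fun a => (Fintype.equivFin Ω).symm.trans
        ((lperm (fun k => act (g k)) a).trans (Fintype.equivFin Ω)))) :
    I ∈ GroupInst g w (actFin act) := by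
  classical
  unfold TypedInst at hI
  obtain ⟨a, b, c, h1, h2⟩ := hI
  refine ⟨fun e => (c e).1, ?_, ?_⟩
  · intro e
    obtain ⟨-, -, h3⟩ := h1 e
    rw [h3]
    by_cases h : (c e).2 = true
    · left
      show (Fintype.equivFin Ω).symm.trans ((lperm (fun k => act (g k)) (c e)).trans
        (Fintype.equivFin Ω)) = _
      unfold lperm
      rw [if_pos h]
      rfl
    · right
      show (Fintype.equivFin Ω).symm.trans ((lperm (fun k => act (g k)) (c e)).trans
        (Fintype.equivFin Ω)) = _
      unfold lperm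
      rw [if_neg h]
      rfl
  · intro k
    have h3 := h2 (k, true)
    have h4 := h2 (k, false)
    have h5 : ∑ l : κ × Bool, w l.1 = 2 * ∑ l, w l := by
      rw [Fintype.sum_prod_type]
      simp only [Fintype.sum_bool]
      rw [Finset.sum_add_distrib]
      ring
    have h6 : (univ.filter (fun e : Fin I.m => (c e).1 = k)).card =
        (univ.filter (fun e : Fin I.m => c e = (k, true))).card +
          (univ.filter (fun e : Fin I.m => c e = (k, false))).card := by
      rw [← Finset.card_union_of_disjoint]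
      · congr 1
        ext e
        simp only [mem_filter, mem_univ, true_and, mem_union]
        constructor
        · intro h
          rcases hb : (c e).2 with _ | _
          · right
            exact Prod.ext h hb
          · left
            exact Prod.ext h hb
        · rintro (h | h) <;> rw [h]
      · rw [Finset.disjoint_left]
        intro e he he'
        simp only [mem_filter, mem_univ, true_and] at he he'
        rw [he] at he'
        simp at he'
    have h3' : (univ.filter (fun e : Fin I.m => c e = (k, true))).card * (2 * ∑ l, w l) =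
        w k * I.m := by
      rw [← h5]
      convert h3
    have h4' : (univ.filter (fun e : Fin I.m => c e = (k, false))).card * (2 * ∑ l, w l) =
        w k * I.m := by
      rw [← h5]
      convert h4
    have h7 : (univ.filter (fun e : Fin I.m => (c e).1 = k)).card * ∑ l, w l = w k * I.m := by
      rw [h6, add_mul]
      nlinarith
    convert h7

/-- From the threshold on the unrestricted gap problem reduces to the gap problem for games played
with fixed elements of a residually finite group. -/
theorem groupHard_of {Γ κ : Type} [Group Γ] [Fintype κ] (g : κ → Γ) (w : κ → ℕ)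
    (hres : ResFinite Γ) (hw : 0 < ∑ k, w k) (hinf : Infinite (used g w)) (c₁ δ : ℚ) (hc₁ : c₁ ≤ 1)
    (hδ : theta g w ≤ ((δ : ℚ) : ℝ)) (h : GapHard c₁ allPerms) : GroupHard c₁ g w δ := by
  classical
  intro ε hε hεδ
  have hεr : (0 : ℝ) < ε := by exact_mod_cast hε
  have hth : 0 ≤ theta g w := by
    refine Real.sSup_nonneg ?_
    rintro r ⟨F, -, rfl⟩
    positivity
  have hδ0 : (0 : ℝ) ≤ δ := hth.trans hδ
  have hδ0' : 0 ≤ δ := by exact_mod_cast hδ0
  have hc0 : 0 < c₁ := by linarith
  have hc0r : (0 : ℝ) < c₁ := by exact_mod_cast hc0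
  have hc1r : (c₁ : ℝ) ≤ 1 := by exact_mod_cast hc₁
  obtain ⟨t, ht⟩ := exists_nat_gt (2 / (ε : ℝ))
  have ht0 : (0 : ℝ) < t := lt_trans (by positivity) ht
  have ht1 : 1 ≤ t := by
    have : 0 < t := by exact_mod_cast ht0
    omega
  have hinv : 1 / (t : ℝ) ≤ ε / 2 := by
    rw [div_le_iff₀ ht0]
    rw [div_lt_iff₀ hεr] at ht
    linarith
  obtain ⟨Ω, _, _, act, c, M, hc, hM⟩ := hardG g w hres hw hinf t ht1
  obtain ⟨δ2, hδ2, hδ2'⟩ := exists_rat_btwn
    (show (0 : ℝ) < min (c / (|M| + 1)) (c₁ / 2) from lt_min (by positivity) (by positivity))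
  have hδ20 : 0 < δ2 := by exact_mod_cast hδ2
  have hδ21 : (δ2 : ℝ) < c / (|M| + 1) := lt_of_lt_of_le hδ2' (min_le_left _ _)
  have hδ22 : δ2 < c₁ / 2 := by
    have h1 : (δ2 : ℝ) < c₁ / 2 := lt_of_lt_of_le hδ2' (min_le_right _ _)
    have h2 : ((δ2 : ℚ) : ℝ) < ((c₁ / 2 : ℚ) : ℝ) := by push_cast; exact h1
    exact_mod_cast h2
  obtain ⟨q, hq, P', _, hhard⟩ := h (ε / 2) δ2 (by linarith) hδ20 (by linarith)
  have hneq : Nonempty (Fin q) := ⟨⟨0, hq⟩⟩
  have hw2 : 0 < ∑ l : κ × Bool, w l.1 := by
    have h5 : ∑ l : κ × Bool, w l.1 = 2 * ∑ l, w l := by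
      rw [Fintype.sum_prod_type]
      simp only [Fintype.sum_bool]
      rw [Finset.sum_add_distrib]
      ring
    omega
  obtain ⟨R, hR1, hR2⟩ := exists_typed_loc (T0 κ) (fun a : κ × Bool => w a.1) hw2 t ht1
    (lperm (fun k => act (g k))) q
  refine ⟨Fintype.card Ω, Fintype.card_pos, actFin act, hhard.map R.app (poly_app R) ?_ ?_⟩
  · rintro I ⟨_, hI⟩
    refine ⟨groupInst_of_typed g w act _ (hR1 I), ?_⟩
    rw [hR2]
    have hm : Nonempty (Fin I.m) := ⟨⟨0, I.pos⟩⟩
    refine le_trans ?_ (hM _ _ _ _ I.game).2.1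
    have h1 := value_le_one I.game
    have h2 := value_nonneg I.game
    push_cast at hI ⊢
    have h3 : (1 - (ε : ℝ) / 2) * I.game.value ≤ (1 - 1 / (t : ℝ)) * I.game.value :=
      mul_le_mul_of_nonneg_right (by linarith) h2
    refine le_trans ?_ h3
    nlinarith
  · rintro I ⟨_, hI⟩
    refine ⟨groupInst_of_typed g w act _ (hR1 I), ?_⟩
    rw [hR2]
    have hm : Nonempty (Fin I.m) := ⟨⟨0, I.pos⟩⟩
    refine ((hM _ _ _ _ I.game).2.2).trans ?_
    have h2 := value_nonneg I.game
    have h4 : M * I.game.value ≤ c := by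
      have h5 : M * I.game.value ≤ |M| * I.game.value :=
        mul_le_mul_of_nonneg_right (le_abs_self M) h2
      have h6 : |M| * I.game.value ≤ |M| * (c / (|M| + 1)) :=
        mul_le_mul_of_nonneg_left (hI.trans hδ21.le) (abs_nonneg M)
      have h7 : |M| * (c / (|M| + 1)) ≤ c := by
        rw [mul_div_assoc', div_le_iff₀ (by positivity)]
        nlinarith [abs_nonneg M]
      linarith
    linarith

/-- NP-hardness of the restricted gap problem with completeness near `1` gives the conjecture. -/
theorem gapHard_of_group {Γ κ : Type} [Group Γ] [Fintype κ] (g : κ → Γ) (w : κ → ℕ) (δ : ℚ)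
    (hδ1 : δ < 1) (h : GroupHard 1 g w δ) : GapHard 1 allPerms := by
  refine amplify δ hδ1 (fun ε hε hεδ => ?_)
  obtain ⟨q, hq, act, hh⟩ := h ε hε hεδ
  exact ⟨q, hq, hh.mono (fun I hI => hI.2) (fun I hI => hI.2)⟩

end Pool.Agent.P325g
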