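import Pool.Agent.Lib.P325c.CommGame

/-!
# The property of a model that makes the long code game sound
-/

open Finset

namespace Pool.Agent.P325g

open Pool.Agent.P325f1f.Dich Pool.Agent.P325c

open scoped Classical in
/-- For all small sets `A`, `B` of labels and all weights `μ` on `A`, `ν` on `B` the overlaps of `μ` and
`ν` under the letters are at most `m` times the total weight, with a gain of `c1 * r` if some label
has the weight `r`. -/
def Own {κ Ω : Type} [Fintype κ] (σ : κ → Equiv.Perm Ω) (w : κ → ℕ) (m c1 : ℝ) (N : ℕ) : Prop :=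
  ∀ (A B : Finset Ω), A.card + B.card ≤ N → ∀ (μ ν : Ω → ℝ), (∀ ω, 0 ≤ μ ω) → (∀ ω, 0 ≤ ν ω) →
    ∀ r : ℝ, ((∃ v ∈ A, r = μ v) ∨ (∃ v ∈ B, r = ν v)) →
      (∑ a : κ × Bool, (w a.1 : ℝ) *
          ∑ ω ∈ A, if lperm σ a ω ∈ B then min (μ ω) (ν (lperm σ a ω)) else 0) + c1 * r ≤
        m * (∑ ω ∈ A, μ ω + ∑ ω ∈ B, ν ω)

end Pool.Agent.P325g
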