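import Pool.Agent.Lib.P325g.Basic

/-!
# The supremum `theta` is never attained, with a uniform gap

Sketch. Put `n = ∑ w`, `φ F = theta * n * |F| - inside F ≥ 0` (`inside_le_theta`) and let `φ0` be the infimum
of `φ` over the finite nonempty sets; claim `1 ≤ φ0`. Take `ε < 1 / 2` and `F` with `φ F ≤ φ0 + ε`.
(1) There are `k` with `0 < w k` and `x ∈ F` with `g k * x ∉ F`: otherwise `F` is closed under the left
multiplication by all `g k` of positive weight, hence (finite set, injective map) also under their inverses,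
hence under `used g w` (`Subgroup.closure_induction`), and `used g w → F`, `h ↦ h * x0` is injective, which
contradicts `Infinite`.
(2) As `x ↦ g k * x` is injective and does not map the finite set `F` into itself, there is `z ∈ F` with
`(g k)⁻¹ * z ∉ F`.
(3) Put `y = z⁻¹ * (g k * x)` and `F' = F.image (· * y)`. Then `|F'| = |F|`, `inside F' = inside F`
(`g l * (u * y) = (g l * u) * y`), `g k * x = z * y ∈ F'`, `g k * x ∉ F`, `x ∈ F`, and `x ∉ F'` because
`x * y⁻¹ = x * (g k * x)⁻¹ * z = (g k)⁻¹ * z ∉ F`.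
(4) For every `l`, counting the `u` with `u, g l * u` in a set is supermodular:
`N_l (F ∪ F') + N_l (F ∩ F') ≥ N_l F + N_l F'`, and for `l = k` the element `u = x` gives one more. Hence
`inside (F ∪ F') + inside (F ∩ F') ≥ 2 * inside F + 1`, i.e. `φ (F ∪ F') + φ (F ∩ F') ≤ 2 * φ F - 1`
(`|F ∪ F'| + |F ∩ F'| = 2 * |F|`).
(5) If `F ∩ F'` is not empty then `2 * φ0 ≤ 2 * φ0 + 2 * ε - 1`, impossible. If it is empty then
`φ0 ≤ 2 * φ0 + 2 * ε - 1`, so `1 - 2 * ε ≤ φ0`. Let `ε` tend to `0`.
-/

open Finset

namespace Pool.Agent.P325g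

theorem exists_out {Γ κ : Type} [Group Γ] [Fintype κ] (g : κ → Γ) (w : κ → ℕ)
    (hinf : Infinite (used g w)) (F : Finset Γ) (hF : F.Nonempty) :
    ∃ k, 0 < w k ∧ ∃ x ∈ F, g k * x ∉ F := by
  classical
  by_contra hcon
  push Not at hcon
  have hclosed : ∀ h ∈ used g w, ∀ x, x ∈ F ↔ h * x ∈ F := by
    intro h hh
    unfold used at hh
    induction hh using Subgroup.closure_induction with
    | mem a ha =>
      obtain ⟨k, hk, rfl⟩ := ha
      have himg : F.image (fun x => g k * x) = F := by
        apply Finset.eq_of_subset_of_card_le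
        · intro y hy
          obtain ⟨x, hx, rfl⟩ := Finset.mem_image.1 hy
          exact hcon k hk x hx
        · rw [Finset.card_image_of_injective _ (mul_right_injective _)]
      intro x
      constructor
      · exact hcon k hk x
      · intro hx
        have hx' : g k * x ∈ F.image (fun x => g k * x) := by rw [himg]; exact hx
        obtain ⟨z, hz, hzx⟩ := Finset.mem_image.1 hx'
        have : z = x := mul_left_cancel hzx
        rwa [← this]
    | one => intro x; simp
    | mul a b _ _ iha ihb => intro x; rw [ihb x, iha (b * x), mul_assoc]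
    | inv a _ ih => intro x; rw [ih (a⁻¹ * x), mul_inv_cancel_left]
  obtain ⟨x0, hx0⟩ := hF
  have hi : Function.Injective
      (fun h : used g w => (⟨(h : Γ) * x0, (hclosed h h.2 x0).1 hx0⟩ : F)) := by
    intro a b hab
    have := congrArg Subtype.val hab
    exact Subtype.ext (mul_right_cancel this)
  have hfin : Finite (used g w) := Finite.of_injective _ hi
  exact not_finite (used g w)

theorem exists_in_out {Γ κ : Type} [Group Γ] [Fintype κ] (g : κ → Γ) (w : κ → ℕ)
    (hinf : Infinite (used g w)) (F : Finset Γ) (hF : F.Nonempty) :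
    ∃ k, 0 < w k ∧ (∃ x ∈ F, g k * x ∉ F) ∧ ∃ z ∈ F, (g k)⁻¹ * z ∉ F := by
  classical
  obtain ⟨k, hk, x, hx, hgx⟩ := exists_out g w hinf F hF
  refine ⟨k, hk, ⟨x, hx, hgx⟩, ?_⟩
  by_contra hcon
  push Not at hcon
  have himg : F.image (fun z => (g k)⁻¹ * z) = F := by
    apply Finset.eq_of_subset_of_card_le
    · intro y hy
      obtain ⟨z, hz, rfl⟩ := Finset.mem_image.1 hy
      exact hcon z hz
    · rw [Finset.card_image_of_injective _ (mul_right_injective _)]
  have hx' : x ∈ F.image (fun z => (g k)⁻¹ * z) := by rw [himg]; exact hx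
  obtain ⟨z, hz, hzx⟩ := Finset.mem_image.1 hx'
  apply hgx
  rw [← hzx, mul_inv_cancel_left]
  exact hz

theorem inside_translate {Γ κ : Type} [Group Γ] [Fintype κ] [DecidableEq Γ] (g : κ → Γ)
    (w : κ → ℕ) (F : Finset Γ) (y : Γ) :
    inside g w (F.image (fun u => u * y)) = inside g w F := by
  rw [inside_eq, inside_eq]
  refine Finset.sum_congr rfl fun l _ => ?_
  congr 1
  have : (F.image (fun u => u * y)).filter (fun x => g l * x ∈ F.image (fun u => u * y))
      = (F.filter (fun x => g l * x ∈ F)).image (fun u => u * y) := by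
    ext v
    simp only [Finset.mem_filter, Finset.mem_image]
    constructor
    · rintro ⟨⟨a, ha, rfl⟩, b, hb, hab⟩
      refine ⟨a, ⟨ha, ?_⟩, rfl⟩
      have : b = g l * a := by
        rw [← mul_assoc] at hab
        exact mul_right_cancel hab
      rwa [← this]
    · rintro ⟨a, ⟨ha, hga⟩, rfl⟩
      exact ⟨⟨a, ha, rfl⟩, g l * a, hga, by rw [mul_assoc]⟩
  rw [this, Finset.card_image_of_injective _ (mul_left_injective _)]

theorem count_super {Γ : Type} [Group Γ] [DecidableEq Γ] (h : Γ) (F F' : Finset Γ) :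
    (F.filter (fun x => h * x ∈ F)).card + (F'.filter (fun x => h * x ∈ F')).card
      ≤ ((F ∪ F').filter (fun x => h * x ∈ F ∪ F')).card
        + ((F ∩ F').filter (fun x => h * x ∈ F ∩ F')).card := by
  rw [← Finset.card_union_add_card_inter]
  refine Nat.add_le_add (Finset.card_le_card ?_) (Finset.card_le_card ?_)
  · intro u hu
    simp only [Finset.mem_union, Finset.mem_filter] at hu ⊢
    tauto
  · intro u hu
    simp only [Finset.mem_inter, Finset.mem_filter] at hu ⊢
    tauto

theorem count_super' {Γ : Type} [Group Γ] [DecidableEq Γ] (h : Γ) (F F' : Finset Γ) (x : Γ)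
    (hx : x ∈ F) (hx' : x ∉ F') (hhx : h * x ∉ F) (hhx' : h * x ∈ F') :
    (F.filter (fun x => h * x ∈ F)).card + (F'.filter (fun x => h * x ∈ F')).card + 1
      ≤ ((F ∪ F').filter (fun x => h * x ∈ F ∪ F')).card
        + ((F ∩ F').filter (fun x => h * x ∈ F ∩ F')).card := by
  rw [← Finset.card_union_add_card_inter]
  have hnot : x ∉ F.filter (fun x => h * x ∈ F) ∪ F'.filter (fun x => h * x ∈ F') := by
    simp only [Finset.mem_union, Finset.mem_filter]
    tauto
  have h1 : (insert x (F.filter (fun x => h * x ∈ F) ∪ F'.filter (fun x => h * x ∈ F'))).card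
      ≤ ((F ∪ F').filter (fun x => h * x ∈ F ∪ F')).card := by
    apply Finset.card_le_card
    intro u hu
    rcases Finset.mem_insert.1 hu with rfl | hu
    · simp only [Finset.mem_union, Finset.mem_filter]
      tauto
    · simp only [Finset.mem_union, Finset.mem_filter] at hu ⊢
      tauto
  rw [Finset.card_insert_of_notMem hnot] at h1
  have h2 : (F.filter (fun x => h * x ∈ F) ∩ F'.filter (fun x => h * x ∈ F')).card
      ≤ ((F ∩ F').filter (fun x => h * x ∈ F ∩ F')).card := by
    apply Finset.card_le_card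
    intro u hu
    simp only [Finset.mem_inter, Finset.mem_filter] at hu ⊢
    tauto
  omega

theorem inside_super {Γ κ : Type} [Group Γ] [Fintype κ] [DecidableEq Γ] (g : κ → Γ)
    (w : κ → ℕ) (F F' : Finset Γ) (k : κ) (hk : 0 < w k) (x : Γ)
    (hx : x ∈ F) (hx' : x ∉ F') (hhx : g k * x ∉ F) (hhx' : g k * x ∈ F') :
    inside g w F + inside g w F' + 1 ≤ inside g w (F ∪ F') + inside g w (F ∩ F') := by
  classical
  rw [inside_eq, inside_eq, inside_eq, inside_eq, ← Finset.sum_add_distrib,
    ← Finset.sum_add_distrib]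
  apply Nat.succ_le_of_lt
  refine Finset.sum_lt_sum (fun l _ => ?_) ⟨k, Finset.mem_univ _, ?_⟩
  · rw [← Nat.mul_add, ← Nat.mul_add]
    exact Nat.mul_le_mul_left _ (count_super (g l) F F')
  · rw [← Nat.mul_add, ← Nat.mul_add]
    exact Nat.mul_lt_mul_of_pos_left (count_super' (g k) F F' x hx hx' hhx hhx') hk

/-- `φ F = theta * n * |F| - inside F`. -/
noncomputable def phi {Γ κ : Type} [Group Γ] [Fintype κ] (g : κ → Γ) (w : κ → ℕ)
    (F : Finset Γ) : ℝ :=
  theta g w * ((∑ k, w k : ℕ) : ℝ) * F.card - inside g w F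

theorem phi_double {Γ κ : Type} [Group Γ] [Fintype κ] [DecidableEq Γ] (g : κ → Γ)
    (w : κ → ℕ) (hinf : Infinite (used g w)) (F : Finset Γ) (hF : F.Nonempty) :
    ∃ F' : Finset Γ, F'.Nonempty ∧ phi g w (F ∪ F') + phi g w (F ∩ F') ≤ 2 * phi g w F - 1 := by
  obtain ⟨k, hk, ⟨x, hx, hgx⟩, z, hz, hgz⟩ := exists_in_out g w hinf F hF
  set y : Γ := z⁻¹ * (g k * x) with hy
  refine ⟨F.image (fun u => u * y), hF.image _, ?_⟩
  set F' := F.image (fun u => u * y) with hF'
  have hcard : F'.card = F.card := Finset.card_image_of_injective _ (mul_left_injective _)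
  have hins : inside g w F' = inside g w F := inside_translate g w F y
  have h1 : g k * x ∈ F' := by
    refine Finset.mem_image.2 ⟨z, hz, ?_⟩
    simp [hy]
  have h2 : x ∉ F' := by
    intro hxF
    obtain ⟨u, hu, hux⟩ := Finset.mem_image.1 hxF
    apply hgz
    have : u = (g k)⁻¹ * z := by
      have h3 : u = x * y⁻¹ := by
        rw [← hux]
        simp
      rw [h3, hy]
      group
    rwa [← this]
  have hs := inside_super g w F F' k hk x hx h2 hgx h1
  have hc := Finset.card_union_add_card_inter F F'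
  rw [hins] at hs
  rw [hcard] at hc
  have hs' : (inside g w F : ℝ) + inside g w F + 1
      ≤ inside g w (F ∪ F') + inside g w (F ∩ F') := by exact_mod_cast hs
  have hc' : ((F ∪ F').card : ℝ) + (F ∩ F').card = F.card + F.card := by exact_mod_cast hc
  unfold phi
  have hc2 : theta g w * ((∑ k, w k : ℕ) : ℝ) * (F ∪ F').card
      + theta g w * ((∑ k, w k : ℕ) : ℝ) * (F ∩ F').card
      = 2 * (theta g w * ((∑ k, w k : ℕ) : ℝ) * F.card) := by
    rw [← mul_add, hc']
    ring
  linarith

theorem inside_add_one {Γ κ : Type} [Group Γ] [Fintype κ] (g : κ → Γ) (w : κ → ℕ)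
    (hw : 0 < ∑ k, w k) (hinf : Infinite (used g w)) (F : Finset Γ) (hF : F.Nonempty) :
    (inside g w F : ℝ) + 1 ≤ theta g w * ((∑ k, w k : ℕ) : ℝ) * F.card := by
  classical
  have hnn : ∀ A : Finset Γ, 0 ≤ phi g w A := fun A =>
    sub_nonneg.2 (inside_le_theta g w hw A)
  set S : Set ℝ := {r : ℝ | ∃ A : Finset Γ, A.Nonempty ∧ r = phi g w A} with hS
  have hSne : S.Nonempty := ⟨_, F, hF, rfl⟩
  have hSb : BddBelow S := ⟨0, by rintro r ⟨A, -, rfl⟩; exact hnn A⟩
  have hlow : ∀ A : Finset Γ, A.Nonempty → sInf S ≤ phi g w A := fun A hA =>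
    csInf_le hSb ⟨A, hA, rfl⟩
  have h0 : 0 ≤ sInf S := le_csInf hSne (by rintro r ⟨A, -, rfl⟩; exact hnn A)
  have key : 1 ≤ sInf S := by
    by_contra hlt
    push Not at hlt
    obtain ⟨r, ⟨A, hA, rfl⟩, hr⟩ :=
      exists_lt_of_csInf_lt hSne (show sInf S < sInf S + (1 - sInf S) / 2 by linarith)
    obtain ⟨A', hA', hdouble⟩ := phi_double g w hinf A hA
    have hU := hlow (A ∪ A') (hA.mono Finset.subset_union_left)
    rcases (A ∩ A').eq_empty_or_nonempty with he | hne
    · have := hnn (A ∩ A')
      linarith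
    · have := hlow (A ∩ A') hne
      linarith
  have := hlow F hF
  unfold phi at this
  linarith

end Pool.Agent.P325g
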