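import Pool.Agent.Lib.P325g.Basic
import Pool.Agent.Lib.P325g.RaagRed
import Pool.Agent.Lib.P325c.Own
import Pool.Agent.Lib.P325c.Model
import Pool.Agent.Lib.P325f1f.Amen.Defs

/-!
# `theta` of a right-angled Artin group, upper bound, and residual finiteness

Sketch. (Residual finiteness) For `x ≠ 1` take a reduced word `l` with product `x` (`exists_red`); `l ≠ []`.
`Pool.Agent.P325c.exists_model G l.length` gives a finite `Ω` and commuting `σ` without fixed points of reduced words of
length at most `l.length`; the kernel of the action (`exists_raagAct`) is normal, of finite index (`Equiv.Perm Ω` is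
finite) and does not contain `x`, as `act x = wperm σ l` moves every point.
(Upper bound) Let `F` be finite nonempty. Let `N` be at least `2 * |F|` and such that all `x⁻¹ * y` with
`x, y ∈ F`... (better: all `y * x⁻¹`) have a reduced word of length at most `2 * N + 1`. Take `Ω`, `σ` from
`exists_model G (2 * N + 1)` and fix `ω0`. The map `x ↦ act x ω0` is injective on `F`: `act x ω0 = act y ω0`
gives that `act (y * x⁻¹)` fixes the point `act x ω0`, so its reduced word is empty and `x = y`. Let `A` be the
image of `F`. If `x, g k * x ∈ F` then `σ k` maps `act x ω0 ∈ A` into `A`. By `Pool.Agent.P325c.own_bound` for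
`A`, `B = A`, `μ = ν = 1`, `g = 0` the number of `(a, ω)`, weighted by `w a.1`, with `ω ∈ A`,
`lperm σ a ω ∈ A` is at most `cliqueWeight G w * 2 * |A|`; the letters `(k, true)` and `(k, false)` have the same
number of such `ω`, hence `2 * inside ≤ 2 * cliqueWeight * |F|`.
-/

open Finset

namespace Pool.Agent.P325g

open Pool.Agent.P325c Pool.Agent.P325f1f.Amen

theorem raag_resFinite {κ : Type} [Fintype κ] (G : SimpleGraph κ) : ResFinite (Raag G) := by
  intro x hx
  obtain ⟨l, hred, hl⟩ := exists_red G x
  have hne : l ≠ [] := by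
    rintro rfl
    exact hx hl.symm
  obtain ⟨Ω, hΩ, ⟨ω0⟩, σ, hc, hfree⟩ := exists_model G l.length
  obtain ⟨act, h1, h2⟩ := exists_raagAct G σ hc
  refine ⟨act.ker, inferInstance, ?_, ?_⟩
  · have : Finite act.range := inferInstance
    exact Subgroup.finiteIndex_ker act
  · intro hk
    rw [MonoidHom.mem_ker, ← hl, h2 l] at hk
    have h3 := hfree l hne le_rfl hred ω0
    rw [hk] at h3
    exact h3 rfl

theorem raag_upper {κ : Type} [Fintype κ] (G : SimpleGraph κ) (w : κ → ℕ)
    (F : Finset (Raag G)) : inside (gen G) w F ≤ cliqueWeight G w * F.card := by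
  classical
  rw [inside_eq]
  choose L hL1 hL2 using exists_red G
  set N : ℕ := 2 * F.card + (F ×ˢ F).sup (fun p => (L (p.2 * p.1⁻¹)).length) with hN
  obtain ⟨Ω, hΩ, ⟨ω0⟩, σ, hc, hfree⟩ := exists_model G (2 * N + 1)
  obtain ⟨act, h1, h2⟩ := exists_raagAct G σ hc
  let φ : Raag G → Ω := fun x => act x ω0
  have hinj : ∀ x ∈ F, ∀ y ∈ F, φ x = φ y → x = y := by
    intro x hx y hy hxy
    have hlen : (L (y * x⁻¹)).length ≤ 2 * N + 1 := by
      have : (L (y * x⁻¹)).length ≤ (F ×ˢ F).sup (fun p => (L (p.2 * p.1⁻¹)).length) :=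
        Finset.le_sup (f := fun p : Raag G × Raag G => (L (p.2 * p.1⁻¹)).length)
          (b := (x, y)) (Finset.mem_product.2 ⟨hx, hy⟩)
      omega
    have hfix : wperm σ (L (y * x⁻¹)) (φ x) = φ x := by
      rw [← h2, hL2]
      show act (y * x⁻¹) (act x ω0) = act x ω0
      rw [← Equiv.Perm.mul_apply, ← map_mul, inv_mul_cancel_right]
      exact hxy.symm
    have hnil : L (y * x⁻¹) = [] := by
      by_contra hne
      exact hfree _ hne hlen (hL1 _) _ hfix
    have h3 := hL2 (y * x⁻¹)
    rw [hnil] at h3
    have h4 : y * x⁻¹ = 1 := h3.symm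
    exact (mul_inv_eq_one.1 h4).symm
  set A : Finset Ω := F.image φ with hA
  have hcard : A.card = F.card := Finset.card_image_of_injOn (fun x hx y hy h => hinj x hx y hy h)
  have hAB : A.card + A.card ≤ N := by
    rw [hcard]
    omega
  have hown := own_bound G σ hc N hfree w A A hAB (fun _ => 1) (fun _ => 1)
    (fun _ => zero_le_one) (fun _ => zero_le_one) 0 (Or.inl rfl)
  have hplus : ∀ k, (F.filter (fun x => gen G k * x ∈ F)).card ≤
      (A.filter (fun ω => lperm σ (k, true) ω ∈ A)).card := by
    intro k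
    refine Finset.card_le_card_of_injOn φ ?_ ?_
    · intro x hx
      rw [Finset.mem_coe, Finset.mem_filter] at hx
      rw [Finset.mem_coe, Finset.mem_filter]
      refine ⟨Finset.mem_image_of_mem _ hx.1, ?_⟩
      have : lperm σ (k, true) (φ x) = φ (gen G k * x) := by
        show σ k (act x ω0) = act (gen G k * x) ω0
        rw [map_mul, Equiv.Perm.mul_apply, h1]
      rw [this]
      exact Finset.mem_image_of_mem _ hx.2
    · intro x hx y hy h
      rw [Finset.mem_coe, Finset.mem_filter] at hx hy
      exact hinj x hx.1 y hy.1 h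
  have hminus : ∀ k, (A.filter (fun ω => lperm σ (k, true) ω ∈ A)).card ≤
      (A.filter (fun ω => lperm σ (k, false) ω ∈ A)).card := by
    intro k
    refine Finset.card_le_card_of_injOn (σ k) ?_ ?_
    · intro ω hω
      rw [Finset.mem_coe, Finset.mem_filter] at hω
      rw [Finset.mem_coe, Finset.mem_filter]
      refine ⟨hω.2, ?_⟩
      have : lperm σ (k, false) (σ k ω) = ω := by
        show (σ k)⁻¹ (σ k ω) = ω
        simp
      rw [this]
      exact hω.1
    · intro x _ y _ h
      exact (σ k).injective h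
  have hsum : ∀ a : κ × Bool, (∑ ω ∈ A, if lperm σ a ω ∈ A then min (1 : ℝ) 1 else 0) =
      ((A.filter (fun ω => lperm σ a ω ∈ A)).card : ℝ) := by
    intro a
    rw [min_self, Finset.sum_boole]
  have hown' : (∑ a : κ × Bool, (w a.1 : ℝ) * ((A.filter (fun ω => lperm σ a ω ∈ A)).card : ℝ)) ≤
      (cliqueWeight G w : ℝ) * (F.card + F.card) := by
    have h5 : (∑ a : κ × Bool, (w a.1 : ℝ) *
        ((A.filter (fun ω => lperm σ a ω ∈ A)).card : ℝ)) =
        ∑ a : κ × Bool, (w a.1 : ℝ) *
          ∑ ω ∈ A, if lperm σ a ω ∈ A then min (1 : ℝ) 1 else 0 :=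
      Finset.sum_congr rfl fun a _ => by rw [hsum a]
    rw [h5]
    simp only [mul_zero, add_zero, Finset.sum_const, nsmul_eq_mul, mul_one, hcard] at hown
    convert hown using 5
  rw [Fintype.sum_prod_type] at hown'
  simp only [Fintype.sum_bool] at hown'
  have hfin : (∑ k, (w k : ℝ) * ((F.filter (fun x => gen G k * x ∈ F)).card : ℝ)) * 2 ≤
      (cliqueWeight G w : ℝ) * (F.card + F.card) := by
    refine le_trans ?_ hown'
    rw [Finset.sum_mul]
    refine Finset.sum_le_sum fun k _ => ?_
    have h6 : ((F.filter (fun x => gen G k * x ∈ F)).card : ℝ) ≤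
        ((A.filter (fun ω => lperm σ (k, true) ω ∈ A)).card : ℝ) := by exact_mod_cast hplus k
    have h7 : ((A.filter (fun ω => lperm σ (k, true) ω ∈ A)).card : ℝ) ≤
        ((A.filter (fun ω => lperm σ (k, false) ω ∈ A)).card : ℝ) := by exact_mod_cast hminus k
    have h8 : (0 : ℝ) ≤ w k := Nat.cast_nonneg _
    nlinarith
  have hres : (∑ k, (w k : ℝ) * ((F.filter (fun x => gen G k * x ∈ F)).card : ℝ)) ≤
      (cliqueWeight G w : ℝ) * F.card := by linarith
  exact_mod_cast hres

end Pool.Agent.P325g
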